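import Mathlib
import Pool.Agent.H12.EH.Spc

/-!
[H80 SH CSN]  Pairs in one class modulo `q ≤ 8 lam S`: count `s`, then `r`.

The number of `s = a y²`, `U ≤ y ≤ 2 U`, `s ≤ 2 S`: `1 ≤ a ≤ 2 S / U²` and `1 ≤ y ≤ 2 U`, so at most `(2 S / U²) (2 U) = 4 S / U` values.  For fixed `s` the `r` are
congruent modulo `q` and in an interval of length `8 lam S`: at most `1 + 8 lam S / q ≤ 16 lam S / q`.
-/

set_option autoImplicit false

namespace Pool.Agent.H80.SH

theorem csn {q t : ℤ} (hq : 0 < q) {β S lam U : ℝ} (hS : 1 ≤ S) (hlam : 0 < lam) (hU : 1 ≤ U)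
    (hqs : (q : ℝ) ≤ 8 * lam * S) (T : Finset (ℤ × ℤ))
    (hT : ∀ p ∈ T, 0 < p.2 ∧ (p.2 : ℝ) ≤ 2 * S ∧ |(p.1 : ℝ) - β * p.2| ≤ 4 * lam * S ∧
      q ∣ p.1 - t * p.2 ∧ ∃ a y : ℕ, p.2 = a * y ^ 2 ∧ U ≤ y ∧ (y : ℝ) ≤ 2 * U) :
    (T.card : ℝ) ≤ 64 * (S / U * (lam * S / q)) := by
  classical
  have hqr : (0 : ℝ) < q := by exact_mod_cast hq
  have hU0 : (0 : ℝ) < U := by linarith
  have hS0 : (0 : ℝ) < S := by linarith
  -- the number of values of `s`
  have h1 : ((T.image Prod.snd).card : ℝ) ≤ 4 * (S / U) := by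
    have hsub : T.image Prod.snd ⊆
        ((Finset.Icc 1 ⌊2 * S / U ^ 2⌋₊ ×ˢ Finset.Icc 1 ⌊2 * U⌋₊).image
          fun ay : ℕ × ℕ => ((ay.1 : ℤ) * (ay.2 : ℤ) ^ 2)) := by
      intro z hz
      rw [Finset.mem_image] at hz
      obtain ⟨p, hp, rfl⟩ := hz
      obtain ⟨c1, c2, -, -, a, y, c3, c4, c5⟩ := hT p hp
      rw [Finset.mem_image]
      refine ⟨(a, y), ?_, c3.symm⟩
      have hy1 : 1 ≤ y := by
        have : (1 : ℝ) ≤ y := hU.trans c4
        exact_mod_cast this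
      have ha1 : 1 ≤ a := by
        rcases Nat.eq_zero_or_pos a with h | h
        · rw [c3, h] at c1
          simp at c1
        · exact h
      have hs : (a : ℝ) * (y : ℝ) ^ 2 ≤ 2 * S := by
        have e : ((p.2 : ℤ) : ℝ) = (a : ℝ) * (y : ℝ) ^ 2 := by
          rw [c3]
          push_cast
          ring
        rw [← e]
        exact c2
      rw [Finset.mem_product, Finset.mem_Icc, Finset.mem_Icc]
      refine ⟨⟨ha1, Nat.le_floor ?_⟩, hy1, Nat.le_floor c5⟩
      show (a : ℝ) ≤ 2 * S / U ^ 2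
      rw [le_div_iff₀ (by positivity)]
      refine le_trans ?_ hs
      apply mul_le_mul_of_nonneg_left _ (Nat.cast_nonneg _)
      exact pow_le_pow_left₀ hU0.le c4 2
    have h2 := (Finset.card_le_card hsub).trans Finset.card_image_le
    rw [Finset.card_product, Nat.card_Icc, Nat.card_Icc, Nat.add_sub_cancel, Nat.add_sub_cancel] at h2
    have h3 : ((T.image Prod.snd).card : ℝ) ≤ (⌊2 * S / U ^ 2⌋₊ : ℝ) * (⌊2 * U⌋₊ : ℝ) := by
      exact_mod_cast h2
    have h4 : (⌊2 * S / U ^ 2⌋₊ : ℝ) ≤ 2 * S / U ^ 2 := Nat.floor_le (by positivity)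
    have h5 : (⌊2 * U⌋₊ : ℝ) ≤ 2 * U := Nat.floor_le (by positivity)
    calc ((T.image Prod.snd).card : ℝ) ≤ (⌊2 * S / U ^ 2⌋₊ : ℝ) * (⌊2 * U⌋₊ : ℝ) := h3
      _ ≤ (2 * S / U ^ 2) * (2 * U) := mul_le_mul h4 h5 (Nat.cast_nonneg _) (by positivity)
      _ = 4 * (S / U) := by
          field_simp
          ring
  -- each fibre
  have h2 : ∀ z ∈ T.image Prod.snd, ((T.filter fun p => p.2 = z).card : ℝ) ≤ 16 * (lam * S / q) := by
    intro z hz
    have h3 := Pool.Agent.H12.EH.spc (T.filter fun p => p.2 = z) (fun p => (p.1 : ℝ))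
      (β * z - 4 * lam * S) (8 * lam * S) (q : ℝ) hqr (by positivity) (by
        intro p hp
        rw [Finset.mem_filter] at hp
        obtain ⟨-, -, c3, -, -⟩ := hT p hp.1
        rw [hp.2, abs_le] at c3
        constructor <;> linarith [c3.1, c3.2]) (by
        intro p hp p' hp' hne
        rw [Finset.mem_filter] at hp hp'
        obtain ⟨-, -, -, c4, -⟩ := hT p hp.1
        obtain ⟨-, -, -, c4', -⟩ := hT p' hp'.1
        rw [hp.2] at c4
        rw [hp'.2] at c4'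
        have hd : q ∣ p.1 - p'.1 := by
          have := dvd_sub c4 c4'
          have e : p.1 - t * z - (p'.1 - t * z) = p.1 - p'.1 := by ring
          rwa [e] at this
        have hne' : p.1 - p'.1 ≠ 0 := by
          intro h
          apply hne
          refine Prod.ext (by omega) ?_
          rw [hp.2, hp'.2]
        have hle : q ≤ |p.1 - p'.1| := Int.le_of_dvd (abs_pos.2 hne') ((dvd_abs _ _).2 hd)
        have : ((q : ℤ) : ℝ) ≤ ((|p.1 - p'.1| : ℤ) : ℝ) := by exact_mod_cast hle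
        rw [Int.cast_abs, Int.cast_sub] at this
        exact this)
    have h4 : (1 : ℝ) ≤ 8 * lam * S / q := by
      rw [le_div_iff₀ hqr, one_mul]
      exact hqs
    calc ((T.filter fun p => p.2 = z).card : ℝ) ≤ 1 + 8 * lam * S / q := h3
      _ ≤ 8 * lam * S / q + 8 * lam * S / q := by linarith
      _ = 16 * (lam * S / q) := by ring
  have h3 : (T.card : ℝ) = ∑ z ∈ T.image Prod.snd, ((T.filter fun p => p.2 = z).card : ℝ) := by
    exact_mod_cast Finset.card_eq_sum_card_image Prod.snd T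
  rw [h3]
  calc ∑ z ∈ T.image Prod.snd, ((T.filter fun p => p.2 = z).card : ℝ)
      ≤ ∑ _z ∈ T.image Prod.snd, 16 * (lam * S / q) := Finset.sum_le_sum h2
    _ = ((T.image Prod.snd).card : ℝ) * (16 * (lam * S / q)) := by
        rw [Finset.sum_const, nsmul_eq_mul]
    _ ≤ 4 * (S / U) * (16 * (lam * S / q)) := mul_le_mul_of_nonneg_right h1 (by positivity)
    _ = 64 * (S / U * (lam * S / q)) := by ring

end Pool.Agent.H80.SH
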