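import Pool.Agent.H80.SH.Dcz

/-!
[H80 SH DCNT]  Pairs with `y² ∣ s`, `z² ∣ Gf`: spacing modulo `y² z²`.

`dcnt_z`: H80/SH/Dcz.lean.  `dcnt`: as `bcnt` (Pool/Agent/H12/EH/Bcnt.lean): union over `y ∈ [U, 2U]`, `z ∈ [Z, 2Z]` (at most `2 U · 2 Z` pairs), each at most
`(1 + 16 lam S² / (U Z)²) · K C₁² 2^ε Z^ε`.
-/

set_option autoImplicit false

namespace Pool.Agent.H80.SH

open Pool.Agent.H12.EH

theorem dcnt {A B : ℤ} (hD : 4 * A ^ 3 + 27 * B ^ 2 ≠ 0) (ρ : Fin 3 → ℂ) (ε : ℝ)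
    (hε : 0 < ε) : ∃ C : ℝ, 0 < C ∧ ∀ (v : Fin 3) (S lam U Z : ℝ), 0 < S → 0 < lam → 1 ≤ U → 1 ≤ Z →
    ∀ T : Finset (ℤ × ℤ), (∀ p ∈ T, IsCoprime p.1 p.2 ∧ 0 < p.2 ∧ Fib ρ v S lam p.1 p.2 ∧
      ∃ y z : ℕ, U ≤ y ∧ (y : ℝ) ≤ 2 * U ∧ Z ≤ z ∧ (z : ℝ) ≤ 2 * Z ∧ (y : ℤ) ^ 2 ∣ p.2 ∧
        (z : ℤ) ^ 2 ∣ Gf A B p.1 p.2) →
    (T.card : ℝ) ≤ C * Z ^ ε * (U * Z + lam * S ^ 2 / (U * Z)) := by
  classical
  obtain ⟨K, hK, hrts⟩ := rts A B hD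
  obtain ⟨C1, hC1, hdiv⟩ := Pool.Agent.H5.W.divisor_bound (ε / 4) (by positivity)
  refine ⟨64 * (K * C1 ^ 2 * 2 ^ ε), by positivity, ?_⟩
  intro v S lam U Z hS hlam hU hZ T hT
  have hZ0 : 0 < Z := by linarith
  have hU0 : 0 < U := by linarith
  -- the union over `y` and `z`
  have hI : ∀ W : ℝ, 1 ≤ W → (((Finset.Icc ⌈W⌉₊ ⌊2 * W⌋₊).card : ℕ) : ℝ) ≤ 2 * W := by
    intro W hW
    rw [Nat.card_Icc]
    have h1 : (⌊2 * W⌋₊ : ℝ) ≤ 2 * W := Nat.floor_le (by positivity)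
    have h2 : W ≤ ⌈W⌉₊ := Nat.le_ceil W
    have h3 : (⌊2 * W⌋₊ + 1 - ⌈W⌉₊ : ℕ) ≤ (2 * W : ℝ) + 1 - W := by
      rcases Nat.le_total ⌈W⌉₊ (⌊2 * W⌋₊ + 1) with h | h
      · rw [Nat.cast_sub h]
        push_cast
        linarith
      · rw [Nat.sub_eq_zero_of_le h]
        push_cast
        linarith
    linarith
  set Ys : Finset ℕ := (Finset.Icc ⌈U⌉₊ ⌊2 * U⌋₊) with hYs
  set Zs : Finset ℕ := (Finset.Icc ⌈Z⌉₊ ⌊2 * Z⌋₊) with hZs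
  have hsub : T ⊆ (Ys ×ˢ Zs).biUnion (fun q => T.filter (fun p => (q.1 : ℤ) ^ 2 ∣ p.2 ∧
      (q.2 : ℤ) ^ 2 ∣ Gf A B p.1 p.2)) := by
    intro p hp
    obtain ⟨-, -, hF, y, z, hy1, hy2, hz1, hz2, hyd, hzd⟩ := hT p hp
    rw [Finset.mem_biUnion]
    refine ⟨(y, z), ?_, ?_⟩
    · rw [Finset.mem_product, hYs, hZs, Finset.mem_Icc, Finset.mem_Icc]
      exact ⟨⟨Nat.ceil_le.2 hy1, Nat.le_floor hy2⟩, ⟨Nat.ceil_le.2 hz1, Nat.le_floor hz2⟩⟩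
    · rw [Finset.mem_filter]
      exact ⟨hp, hyd, hzd⟩
  have hcard : (((Ys ×ˢ Zs).card : ℕ) : ℝ) ≤ (2 * U) * (2 * Z) := by
    rw [Finset.card_product, Nat.cast_mul]
    exact mul_le_mul (hI U hU) (hI Z hZ) (Nat.cast_nonneg _) (by positivity)
  have hone : ∀ q ∈ Ys ×ˢ Zs, ((T.filter (fun p => (q.1 : ℤ) ^ 2 ∣ p.2 ∧
      (q.2 : ℤ) ^ 2 ∣ Gf A B p.1 p.2)).card : ℝ) ≤
      (1 + 16 * lam * S ^ 2 / (U ^ 2 * Z ^ 2)) * (K * C1 ^ 2 * 2 ^ ε * Z ^ ε) := by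
    rintro ⟨y, z⟩ hq
    rw [Finset.mem_product, hYs, hZs, Finset.mem_Icc, Finset.mem_Icc] at hq
    obtain ⟨hy, hz⟩ := hq
    have hy1 : U ≤ y := (Nat.le_ceil U).trans (by exact_mod_cast hy.1)
    have hz1 : Z ≤ z := (Nat.le_ceil Z).trans (by exact_mod_cast hz.1)
    have hz2 : (z : ℝ) ≤ 2 * Z := (Nat.cast_le.2 hz.2).trans (Nat.floor_le (by positivity))
    have hy0 : 0 < y := by
      have : (0 : ℝ) < y := by linarith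
      exact_mod_cast this
    have hz0 : 0 < z := by
      have : (0 : ℝ) < z := by linarith
      exact_mod_cast this
    have hzr : (0 : ℝ) < z := by exact_mod_cast hz0
    have h1 := dcnt_z (A := A) (B := B) v S lam hS hlam y z hy0 hz0
      (T.filter (fun p => (y : ℤ) ^ 2 ∣ p.2 ∧ (z : ℤ) ^ 2 ∣ Gf A B p.1 p.2)) (by
        intro p hp
        rw [Finset.mem_filter] at hp
        obtain ⟨a, b, d, -⟩ := hT p hp.1
        exact ⟨a, b, d, hp.2.1, hp.2.2⟩)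
    refine h1.trans (mul_le_mul ?_ ?_ (Nat.cast_nonneg _) (by positivity))
    · have : 16 * lam * S ^ 2 / ((y : ℝ) ^ 2 * (z : ℝ) ^ 2) ≤ 16 * lam * S ^ 2 / (U ^ 2 * Z ^ 2) :=
        div_le_div_of_nonneg_left (by positivity) (by positivity)
          (mul_le_mul (pow_le_pow_left₀ hU0.le hy1 2) (pow_le_pow_left₀ hZ0.le hz1 2)
            (by positivity) (by positivity))
      linarith
    · have h2 := hrts (z ^ 2) (by positivity)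
      have h3 : (((Finset.range (z ^ 2)).filter (fun t : ℕ => ((z ^ 2 : ℕ) : ℤ) ∣ (t : ℤ) ^ 3 + A * t + B)).card : ℝ)
          ≤ (K : ℝ) * ((z ^ 2).divisors.card : ℝ) ^ 2 := by exact_mod_cast h2
      have h4 := hdiv (z ^ 2) (Nat.one_le_iff_ne_zero.2 (by positivity))
      have h5 : ((z ^ 2).divisors.card : ℝ) ^ 2 ≤ (C1 * ((z ^ 2 : ℕ) : ℝ) ^ (ε / 4)) ^ 2 :=
        pow_le_pow_left₀ (Nat.cast_nonneg _) h4 2
      have h6 : (C1 * ((z ^ 2 : ℕ) : ℝ) ^ (ε / 4)) ^ 2 = C1 ^ 2 * (z : ℝ) ^ ε := by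
        have e2 : ((z ^ 2 : ℕ) : ℝ) ^ (ε / 4) = (z : ℝ) ^ (ε / 2) := by
          push_cast
          rw [← Real.rpow_natCast (z : ℝ) 2, ← Real.rpow_mul hzr.le]
          congr 1
          push_cast
          ring
        have e3 : ((z : ℝ) ^ (ε / 2)) ^ 2 = (z : ℝ) ^ ε := by
          rw [← Real.rpow_natCast _ 2, ← Real.rpow_mul hzr.le]
          congr 1
          push_cast
          ring
        rw [e2, mul_pow, e3]
      have h7 : (z : ℝ) ^ ε ≤ 2 ^ ε * Z ^ ε := by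
        rw [← Real.mul_rpow (by norm_num) hZ0.le]
        exact Real.rpow_le_rpow hzr.le hz2 hε.le
      calc _ ≤ _ := h3
        _ ≤ (K : ℝ) * (C1 ^ 2 * (z : ℝ) ^ ε) := by
            rw [h6] at h5
            exact mul_le_mul_of_nonneg_left h5 (Nat.cast_nonneg _)
        _ ≤ (K : ℝ) * (C1 ^ 2 * (2 ^ ε * Z ^ ε)) := by gcongr
        _ = _ := by ring
  have h1 : (T.card : ℝ) ≤ ∑ q ∈ Ys ×ˢ Zs, ((T.filter (fun p => (q.1 : ℤ) ^ 2 ∣ p.2 ∧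
      (q.2 : ℤ) ^ 2 ∣ Gf A B p.1 p.2)).card : ℝ) := by
    have := (Finset.card_le_card hsub).trans Finset.card_biUnion_le
    exact_mod_cast this
  have h2 := h1.trans (Finset.sum_le_card_nsmul _ _ _ hone)
  rw [nsmul_eq_mul] at h2
  have hM : 0 ≤ K * C1 ^ 2 * 2 ^ ε * Z ^ ε := by positivity
  have hq0 : 0 ≤ lam * S ^ 2 / (U * Z) := by positivity
  calc (T.card : ℝ) ≤ _ := h2
    _ ≤ (2 * U) * (2 * Z) * ((1 + 16 * lam * S ^ 2 / (U ^ 2 * Z ^ 2)) * (K * C1 ^ 2 * 2 ^ ε * Z ^ ε)) :=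
        mul_le_mul_of_nonneg_right hcard (by positivity)
    _ = 4 * (K * C1 ^ 2 * 2 ^ ε * Z ^ ε) * (U * Z + 16 * (lam * S ^ 2 / (U * Z))) := by
        field_simp
        try ring
    _ ≤ 4 * (K * C1 ^ 2 * 2 ^ ε * Z ^ ε) * (16 * (U * Z + lam * S ^ 2 / (U * Z))) := by
        apply mul_le_mul_of_nonneg_left _ (by positivity)
        have a1 : 0 ≤ U * Z := by positivity
        linarith
    _ = _ := by ring

end Pool.Agent.H80.SH
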