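import Pool.Agent.H12.EH.Bcnt

/-!
[H80 SH DCZ]  Pairs with `y² ∣ s`, `z² ∣ Gf`, fixed `y, z`: spacing modulo `y² z²`.

Exactly as `bcnt_z` (Pool/Agent/H12/EH/Bcnt.lean): in the class of `t` two different pairs satisfy `z² ∣ r s' - r' s` and
`y² ∣ r s' - r' s` (`y² ∣ s, s'`); `y, z` are coprime because `s` is prime to `z` (`hcop` there), so `y² z²` divides it and
`|r/s - r'/s'| ≥ y² z² / (4 S²)`.
-/

set_option autoImplicit false

namespace Pool.Agent.H80.SH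

open Pool.Agent.H12.EH

theorem dcnt_z {A B : ℤ} {ρ : Fin 3 → ℂ} (v : Fin 3) (S lam : ℝ) (hS : 0 < S) (hlam : 0 < lam)
    (y z : ℕ) (hy : 0 < y) (hz : 0 < z) (T : Finset (ℤ × ℤ)) (hT : ∀ p ∈ T, IsCoprime p.1 p.2 ∧ 0 < p.2 ∧
      Fib ρ v S lam p.1 p.2 ∧ (y : ℤ) ^ 2 ∣ p.2 ∧ (z : ℤ) ^ 2 ∣ Gf A B p.1 p.2) :
    (T.card : ℝ) ≤ (1 + 16 * lam * S ^ 2 / ((y : ℝ) ^ 2 * (z : ℝ) ^ 2)) *
      ((Finset.range (z ^ 2)).filter (fun t : ℕ => ((z ^ 2 : ℕ) : ℤ) ∣ (t : ℤ) ^ 3 + A * t + B)).card := by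
  have hzr : (0 : ℝ) < z := by exact_mod_cast hz
  have hyr : (0 : ℝ) < y := by exact_mod_cast hy
  have hz2 : (0 : ℤ) < (z : ℤ) ^ 2 := by positivity
  -- the residue
  have key : ∀ p ∈ T, ∃ t : ℕ, t < z ^ 2 ∧ (z : ℤ) ^ 2 ∣ p.1 - t * p.2 ∧ (z : ℤ) ^ 2 ∣ (t : ℤ) ^ 3 + A * t + B := by
    intro p hp
    obtain ⟨hc, hs, -, -, hd⟩ := hT p hp
    have hcop : IsCoprime p.2 ((z : ℤ) ^ 2) := by
      apply IsCoprime.pow_right
      have h1 : IsCoprime p.2 (Gf A B p.1 p.2) := by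
        have : Gf A B p.1 p.2 = p.1 ^ 3 + p.2 * (A * p.1 * p.2 + B * p.2 ^ 2) := by
          unfold Gf; ring
        rw [this]
        exact (IsCoprime.add_mul_left_right_iff).2 (IsCoprime.pow_right hc.symm)
      exact h1.of_isCoprime_of_dvd_right ((dvd_pow_self _ (by norm_num)).trans hd)
    obtain ⟨a, b, hab⟩ := hcop
    have h0 : 0 ≤ (p.1 * a) % ((z : ℤ) ^ 2) := Int.emod_nonneg _ hz2.ne'
    have h1 : (p.1 * a) % ((z : ℤ) ^ 2) < (z : ℤ) ^ 2 := Int.emod_lt_of_pos _ hz2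
    refine ⟨((p.1 * a) % ((z : ℤ) ^ 2)).toNat, ?_, ?_, ?_⟩
    · have : (((p.1 * a) % ((z : ℤ) ^ 2)).toNat : ℤ) < ((z ^ 2 : ℕ) : ℤ) := by
        rw [Int.toNat_of_nonneg h0]; push_cast; exact h1
      exact_mod_cast this
    · rw [Int.toNat_of_nonneg h0, Int.emod_def]
      refine ⟨p.1 * b + (p.1 * a) / ((z : ℤ) ^ 2) * p.2, ?_⟩
      linear_combination (-p.1) * hab
    · rw [Int.toNat_of_nonneg h0]
      set t := (p.1 * a) % ((z : ℤ) ^ 2) with ht
      have h2 : (z : ℤ) ^ 2 ∣ p.1 - t * p.2 := by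
        rw [ht, Int.emod_def]
        refine ⟨p.1 * b + (p.1 * a) / ((z : ℤ) ^ 2) * p.2, ?_⟩
        linear_combination (-p.1) * hab
      have h3 : (z : ℤ) ^ 2 ∣ p.2 ^ 3 * (t ^ 3 + A * t + B) := by
        have : p.2 ^ 3 * (t ^ 3 + A * t + B) = Gf A B p.1 p.2 -
            (p.1 - t * p.2) * (p.1 ^ 2 + p.1 * (t * p.2) + (t * p.2) ^ 2 + A * p.2 ^ 2) := by
          unfold Gf; ring
        rw [this]
        exact dvd_sub hd (h2.mul_right _)
      exact (IsCoprime.pow_left (m := 3) ⟨a, b, hab⟩ : IsCoprime (p.2 ^ 3) ((z : ℤ) ^ 2)).symm.dvd_of_dvd_mul_left h3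
  choose! f hf using key
  set n : ℕ := ⌊1 + 16 * lam * S ^ 2 / ((y : ℝ) ^ 2 * (z : ℝ) ^ 2)⌋₊ with hn
  have hpos : 0 ≤ 1 + 16 * lam * S ^ 2 / ((y : ℝ) ^ 2 * (z : ℝ) ^ 2) := by positivity
  have h1 := Finset.card_le_mul_card_image_of_maps_to (f := f) (s := T)
    (t := (Finset.range (z ^ 2)).filter (fun t : ℕ => ((z ^ 2 : ℕ) : ℤ) ∣ (t : ℤ) ^ 3 + A * t + B))
    (fun p hp => by
      rw [Finset.mem_filter, Finset.mem_range]
      refine ⟨(hf p hp).1, ?_⟩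
      push_cast
      exact (hf p hp).2.2) n (by
      intro t _
      rw [hn, Nat.le_floor_iff hpos]
      have h2 := spc (T.filter (fun a => f a = t)) (fun p => (p.1 : ℝ) / p.2) ((ρ v).re - 2 * lam) (4 * lam)
        ((y : ℝ) ^ 2 * (z : ℝ) ^ 2 / (4 * S ^ 2)) (by positivity) (by positivity) ?_ ?_
      · refine h2.trans (le_of_eq ?_)
        field_simp
        try ring
      · intro p hp
        rw [Finset.mem_filter] at hp
        obtain ⟨-, hs, hF, -⟩ := hT p hp.1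
        have hsr : (0 : ℝ) < (p.2 : ℝ) := by exact_mod_cast hs
        have h3 : |((p.1 : ℝ) - (ρ v).re * p.2)| ≤ 2 * lam * p.2 := by
          refine le_trans ?_ hF.2.2.2
          have h4 := Complex.abs_re_le_norm ((p.1 : ℂ) - ρ v * p.2)
          have h5 : ((p.1 : ℂ) - ρ v * p.2).re = (p.1 : ℝ) - (ρ v).re * p.2 := by
            simp [Complex.sub_re, Complex.mul_re]
          rwa [h5] at h4
        rw [abs_le] at h3
        constructor
        · rw [le_div_iff₀ hsr]; linarith [h3.1]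
        · rw [div_le_iff₀ hsr]; linarith [h3.2]
      · intro p hp q hq hpq
        rw [Finset.mem_filter] at hp hq
        obtain ⟨hpc, hps, hpF, hpy, hpd⟩ := hT p hp.1
        obtain ⟨hqc, hqs, hqF, hqy, -⟩ := hT q hq.1
        have hpr : (0 : ℝ) < (p.2 : ℝ) := by exact_mod_cast hps
        have hqr : (0 : ℝ) < (q.2 : ℝ) := by exact_mod_cast hqs
        have h3 := cross_ne hpc hqc hps hqs hpq
        have h4 : (z : ℤ) ^ 2 ∣ p.1 * q.2 - q.1 * p.2 := by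
          have a1 := (hf p hp.1).2.1
          have a2 := (hf q hq.1).2.1
          rw [hp.2] at a1
          rw [hq.2] at a2
          have : p.1 * q.2 - q.1 * p.2 = (p.1 - t * p.2) * q.2 - (q.1 - t * q.2) * p.2 := by ring
          rw [this]
          exact dvd_sub (a1.mul_right _) (a2.mul_right _)
        have h4y : (y : ℤ) ^ 2 ∣ p.1 * q.2 - q.1 * p.2 := dvd_sub (hqy.mul_left _) (hpy.mul_left _)
        have hcop : IsCoprime p.2 ((z : ℤ) ^ 2) := by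
          apply IsCoprime.pow_right
          have h1 : IsCoprime p.2 (Gf A B p.1 p.2) := by
            have : Gf A B p.1 p.2 = p.1 ^ 3 + p.2 * (A * p.1 * p.2 + B * p.2 ^ 2) := by
              unfold Gf; ring
            rw [this]
            exact (IsCoprime.add_mul_left_right_iff).2 (IsCoprime.pow_right hpc.symm)
          exact h1.of_isCoprime_of_dvd_right ((dvd_pow_self _ (by norm_num)).trans hpd)
        have hyz : IsCoprime ((y : ℤ) ^ 2) ((z : ℤ) ^ 2) := hcop.of_isCoprime_of_dvd_left hpy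
        have h5 : (y : ℤ) ^ 2 * (z : ℤ) ^ 2 ≤ |p.1 * q.2 - q.1 * p.2| :=
          Int.le_of_dvd (abs_pos.2 (sub_ne_zero.2 h3)) ((dvd_abs _ _).2 (hyz.mul_dvd h4y h4))
        have h6 : (y : ℝ) ^ 2 * (z : ℝ) ^ 2 ≤ |(p.1 : ℝ) * q.2 - q.1 * p.2| := by exact_mod_cast h5
        have h7 : (p.1 : ℝ) / p.2 - q.1 / q.2 = ((p.1 : ℝ) * q.2 - q.1 * p.2) / (p.2 * q.2) := by
          field_simp
        show (y : ℝ) ^ 2 * (z : ℝ) ^ 2 / (4 * S ^ 2) ≤ |(p.1 : ℝ) / p.2 - q.1 / q.2|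
        rw [h7, abs_div, abs_of_pos (mul_pos hpr hqr)]
        refine div_le_div₀ (abs_nonneg _) h6 (by positivity) ?_
        have b1 := hpF.2.1
        have b2 := hqF.2.1
        calc (p.2 : ℝ) * q.2 ≤ (2 * S) * (2 * S) := mul_le_mul b1 b2 hqr.le (by positivity)
          _ = 4 * S ^ 2 := by ring)
  have h2 : (T.card : ℝ) ≤ (n : ℝ) * ((Finset.range (z ^ 2)).filter
      (fun t : ℕ => ((z ^ 2 : ℕ) : ℤ) ∣ (t : ℤ) ^ 3 + A * t + B)).card := by exact_mod_cast h1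
  exact h2.trans (mul_le_mul_of_nonneg_right (Nat.floor_le hpos) (Nat.cast_nonneg _))

end Pool.Agent.H80.SH
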