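import Pool.Agent.H80.SH.Lat
import Pool.Agent.H92.DivBound

/-!
[H80 SH DIF]  Pairs in one class modulo `q > 8 lam S`: differences.

`T` has at most one element: trivial (`S / U² ≥ 1 / 2`).  Otherwise two elements `v₁, v₂` of `T` are independent (`IsCoprime`, `0 < s`; `cross_ne` in H12/EH/Basic.lean)
and `lat` bounds every set `D` of vectors of the class in the box.  `p ∈ T` is determined by `s` (`r ≡ t s (mod q)`, `|r - r'| ≤ 8 lam S < q`).
Choose `a, y` for `p ∈ T`; `1 ≤ a ≤ 2 S / U²`.  Cauchy-Schwarz (`sq_sum_le_card_mul_sum_sq`, `Finset.card_eq_sum_card_fiberwise`):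
`|T|² ≤ (2 S / U²) #{(p, p') ∈ T² : a = a'}`.  The pairs with `p = p'`: `|T|`.  A pair with `p ≠ p'`: `s ≠ s'`, the difference `v = (r - r', s - s')` is in the class
and in the box, `σ = s - s' = a (y - y') (y + y') ≠ 0`, and the pair is determined by `v`, `a ∣ σ` and the sign and absolute value of `y - y' ∣ σ`: at most
`|D| · 2 τ(σ)²`, `τ(σ) ≤ C (2 S)^(ε)` (`Pool.Agent.H5.W.divisor_bound`, as used in H12/EH/Bcnt.lean).  So `|T|² ≤ (2 S / U²) (|T| + C S^(4 ε) lam S² / q)`, and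
`T² ≤ x T + z` gives `T ≤ x + √z`.
-/

set_option autoImplicit false

namespace Pool.Agent.H80.SH

private theorem d_uniq {q t : ℤ} {β S lam : ℝ} (h8 : 8 * lam * S < q) {p p' : ℤ × ℤ}
    (hp : |(p.1 : ℝ) - β * p.2| ≤ 4 * lam * S) (hp' : |(p'.1 : ℝ) - β * p'.2| ≤ 4 * lam * S)
    (hq : q ∣ p.1 - t * p.2) (hq' : q ∣ p'.1 - t * p'.2) (h : p.2 = p'.2) : p = p' := by
  have h1 : q ∣ p.1 - p'.1 := by
    have h2 := dvd_sub hq hq'
    rw [h] at h2
    have e : p.1 - t * p'.2 - (p'.1 - t * p'.2) = p.1 - p'.1 := by ring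
    rwa [e] at h2
  have h2 : |((p.1 - p'.1 : ℤ) : ℝ)| < q := by
    rw [h] at hp
    obtain ⟨a1, a2⟩ := abs_le.mp hp
    obtain ⟨b1, b2⟩ := abs_le.mp hp'
    push_cast
    rw [abs_lt]
    constructor <;> linarith
  have h3 : |p.1 - p'.1| < q := by exact_mod_cast h2
  have h4 := Int.eq_zero_of_abs_lt_dvd h1 h3
  exact Prod.ext (by omega) h

private theorem d_fib {a y y' b z z' : ℕ} {σ : ℤ} (h1 : σ = a * (y : ℤ) ^ 2 - a * (y' : ℤ) ^ 2)
    (h2 : σ = b * (z : ℤ) ^ 2 - b * (z' : ℤ) ^ 2) (hσ : σ ≠ 0) (hab : a = b) (hy : 1 ≤ y) (hz : 1 ≤ z)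
    (hd : ((y : ℤ) - y').natAbs = ((z : ℤ) - z').natAbs) : y = z ∧ y' = z' := by
  subst hab
  have e1 : σ = ((y : ℤ) - y') * (a * (y + y')) := by rw [h1]; ring
  have e2 : σ = ((z : ℤ) - z') * (a * (z + z')) := by rw [h2]; ring
  have ha : (0 : ℤ) < a := by
    rcases Nat.eq_zero_or_pos a with h | h
    · exfalso
      apply hσ
      rw [e1, h]
      simp
    · exact_mod_cast h
  have p1 : (0 : ℤ) < a * (y + y') := by
    apply mul_pos ha
    have : (1 : ℤ) ≤ y := by exact_mod_cast hy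
    positivity
  have p2 : (0 : ℤ) < a * (z + z') := by
    apply mul_pos ha
    have : (1 : ℤ) ≤ z := by exact_mod_cast hz
    positivity
  have hdne : (y : ℤ) - y' ≠ 0 := by
    intro h
    apply hσ
    rw [e1, h, zero_mul]
  rcases Int.natAbs_eq_natAbs_iff.mp hd with h | h
  · rw [h] at e1 hdne
    have h3 : (z : ℤ) - z' ≠ 0 := hdne
    have h4 : (a : ℤ) * (y + y') = a * (z + z') := mul_left_cancel₀ h3 (e1.symm.trans e2)
    have h5 : (y : ℤ) + y' = z + z' := mul_left_cancel₀ ha.ne' h4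
    constructor <;> omega
  · exfalso
    rw [h] at e1
    have h3 : (z : ℤ) - z' ≠ 0 := by
      intro h0
      apply hdne
      rw [h, h0, neg_zero]
    have h4 : -((a : ℤ) * (y + y')) = a * (z + z') := by
      apply mul_left_cancel₀ h3
      rw [← e2, e1]
      ring
    linarith

private theorem d_quad {n A w : ℝ} (hA : 0 ≤ A) (hw : 0 ≤ w) (h : n ^ 2 ≤ A * n + w ^ 2) : n ≤ A + w := by
  by_contra hc
  push Not at hc
  nlinarith

private theorem d_cs (T : Finset (ℤ × ℤ)) (a : ℤ × ℤ → ℕ) (M : ℝ) (hM : ∀ p ∈ T, 1 ≤ a p ∧ (a p : ℝ) ≤ M) (hM0 : 0 ≤ M) :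
    (T.card : ℝ) ^ 2 ≤ M * (((T ×ˢ T).filter fun x => a x.1 = a x.2).card : ℝ) := by
  classical
  have h1 : (T.card : ℝ) = ∑ b ∈ T.image a, ((T.filter fun p => a p = b).card : ℝ) := by
    rw [Finset.card_eq_sum_card_image a T]
    push_cast
    rfl
  have h2 : (((T ×ˢ T).filter fun x => a x.1 = a x.2).card : ℝ) =
      ∑ b ∈ T.image a, ((T.filter fun p => a p = b).card : ℝ) ^ 2 := by
    rw [Finset.card_eq_sum_card_fiberwise (f := fun x : (ℤ × ℤ) × (ℤ × ℤ) => a x.1) (t := T.image a)]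
    · push_cast
      refine Finset.sum_congr rfl fun b _ => ?_
      have h3 : (((T ×ˢ T).filter fun x => a x.1 = a x.2).filter fun x => a x.1 = b) =
          (T.filter fun p => a p = b) ×ˢ (T.filter fun p => a p = b) := by
        ext ⟨x1, x2⟩
        simp only [Finset.mem_filter, Finset.mem_product]
        constructor
        · rintro ⟨⟨⟨h1, h2⟩, h3⟩, h4⟩
          exact ⟨⟨h1, h4⟩, h2, h3 ▸ h4⟩
        · rintro ⟨⟨h1, h4⟩, h2, h3⟩
          exact ⟨⟨⟨h1, h2⟩, h4.trans h3.symm⟩, h4⟩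
      rw [h3, Finset.card_product]
      push_cast
      ring
    · intro x hx
      have hx' := Finset.mem_filter.mp (Finset.mem_coe.mp hx)
      exact Finset.mem_coe.mpr (Finset.mem_image_of_mem a (Finset.mem_product.mp hx'.1).1)
  have h3 : ((T.image a).card : ℝ) ≤ M := by
    have h4 : T.image a ⊆ Finset.Icc 1 ⌊M⌋₊ := by
      intro b hb
      obtain ⟨p, hp, rfl⟩ := Finset.mem_image.mp hb
      obtain ⟨h5, h6⟩ := hM p hp
      exact Finset.mem_Icc.mpr ⟨h5, Nat.le_floor h6⟩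
    have h5 := Finset.card_le_card h4
    rw [Nat.card_Icc, Nat.add_sub_cancel] at h5
    have h6 : ((T.image a).card : ℝ) ≤ (⌊M⌋₊ : ℝ) := by exact_mod_cast h5
    exact h6.trans (Nat.floor_le hM0)
  rw [h1, h2]
  refine sq_sum_le_card_mul_sum_sq.trans ?_
  apply mul_le_mul_of_nonneg_right h3
  exact Finset.sum_nonneg fun b _ => by positivity

theorem dif (ε : ℝ) (hε : 0 < ε) : ∃ C : ℝ, 0 < C ∧ ∀ (q t : ℤ) (β S lam U : ℝ), 0 < q → 1 ≤ S → 0 < lam → 1 ≤ U →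
    U ^ 2 ≤ 2 * S → 8 * lam * S < q → ∀ T : Finset (ℤ × ℤ),
    (∀ p ∈ T, IsCoprime p.1 p.2 ∧ 0 < p.2 ∧ (p.2 : ℝ) ≤ 2 * S ∧ |(p.1 : ℝ) - β * p.2| ≤ 4 * lam * S ∧
      q ∣ p.1 - t * p.2 ∧ ∃ a y : ℕ, p.2 = a * y ^ 2 ∧ U ≤ y ∧ (y : ℝ) ≤ 2 * U) →
    (T.card : ℝ) ≤ C * S ^ ε * (S / U ^ 2 + √(lam * S ^ 3) / (U * √q)) := by
  classical
  obtain ⟨C0, hC0, hdiv⟩ := Pool.Agent.H5.W.divisor_bound ε hε
  refine ⟨2 + 25 * (C0 * 2 ^ ε), by positivity, ?_⟩
  intro q t β S lam U hq hS hlam hU hUS h8 T hT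
  have hqR : (0 : ℝ) < q := by exact_mod_cast hq
  have hS0 : 0 < S := by linarith
  have hU0 : 0 < U := by linarith
  have hSε : 1 ≤ S ^ ε := Real.one_le_rpow hS hε.le
  have hSU : 1 / 2 ≤ S / U ^ 2 := by
    rw [div_le_div_iff₀ (by norm_num) (by positivity)]
    linarith
  set G : ℝ := √(lam * S ^ 3) / (U * √q) with hG
  have hG0 : 0 ≤ G := by positivity
  have hC1 : 0 ≤ C0 * 2 ^ ε := by positivity
  by_cases hcard : T.card ≤ 1
  · have h1 : (T.card : ℝ) ≤ 1 := by exact_mod_cast hcard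
    have h2 : 1 ≤ (2 + 25 * (C0 * 2 ^ ε)) * S ^ ε * (S / U ^ 2 + G) := by
      have h3 : 2 ≤ (2 + 25 * (C0 * 2 ^ ε)) * S ^ ε := by nlinarith
      have h4 : 1 / 2 ≤ S / U ^ 2 + G := by linarith
      nlinarith
    linarith
  push Not at hcard
  obtain ⟨v₁, hv₁, v₂, hv₂, hv12⟩ := Finset.one_lt_card.mp hcard
  have ha : ∀ p ∈ T, ∃ a y : ℕ, p.2 = a * (y : ℤ) ^ 2 ∧ U ≤ y ∧ (y : ℝ) ≤ 2 * U := fun p hp => by
    obtain ⟨a, y, h1, h2, h3⟩ := (hT p hp).2.2.2.2.2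
    exact ⟨a, y, h1, h2, h3⟩
  choose! a y hay using ha
  have hy1 : ∀ p ∈ T, 1 ≤ y p := fun p hp => by
    have h1 : (1 : ℝ) ≤ y p := hU.trans (hay p hp).2.1
    exact_mod_cast h1
  have ha1 : ∀ p ∈ T, 1 ≤ a p ∧ (a p : ℝ) ≤ 2 * S / U ^ 2 := by
    intro p hp
    obtain ⟨h1, h2, h3⟩ := hay p hp
    constructor
    · by_contra hc
      have h4 : a p = 0 := by omega
      have h5 := (hT p hp).2.1
      rw [h1, h4] at h5
      simp at h5
    · rw [le_div_iff₀ (by positivity)]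
      have h4 : ((a p : ℝ)) * (y p : ℝ) ^ 2 ≤ 2 * S := by
        have h5 := (hT p hp).2.2.1
        rw [h1] at h5
        push_cast at h5
        exact h5
      have h5 : U ^ 2 ≤ (y p : ℝ) ^ 2 := pow_le_pow_left₀ hU0.le h2 2
      have h6 : (0 : ℝ) ≤ a p := Nat.cast_nonneg _
      nlinarith
  have huniq : ∀ p ∈ T, ∀ p' ∈ T, p.2 = p'.2 → p = p' := by
    intro p hp p' hp' h
    exact d_uniq (t := t) h8 (hT p hp).2.2.2.1 (hT p' hp').2.2.2.1 (hT p hp).2.2.2.2.1 (hT p' hp').2.2.2.2.1 h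
  set Q := (T ×ˢ T).filter fun x => a x.1 = a x.2 with hQ
  have hCS := d_cs T a (2 * S / U ^ 2) ha1 (by positivity)
  rw [← hQ] at hCS
  set Q2 := Q.filter fun x => ¬ x.1 = x.2 with hQ2
  have hsplit : (Q.card : ℝ) ≤ T.card + Q2.card := by
    have h1 := Finset.card_filter_add_card_filter_not (s := Q) (fun x => x.1 = x.2)
    have h2 : (Q.filter fun x => x.1 = x.2).card ≤ T.card := by
      apply Finset.card_le_card_of_injOn (fun x => x.1)
      · intro x hx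
        have hx' := Finset.mem_filter.mp (Finset.mem_coe.mp hx)
        exact Finset.mem_coe.mpr (Finset.mem_product.mp (Finset.mem_filter.mp hx'.1).1).1
      · intro x hx x' hx' hxx
        have h3 := (Finset.mem_filter.mp (Finset.mem_coe.mp hx)).2
        have h4 := (Finset.mem_filter.mp (Finset.mem_coe.mp hx')).2
        simp only at hxx
        exact Prod.ext hxx (by rw [← h3, ← h4]; exact hxx)
    have h3 : Q.card ≤ T.card + Q2.card := by
      rw [hQ2]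
      omega
    exact_mod_cast h3
  have hmem : ∀ x ∈ Q2, x.1 ∈ T ∧ x.2 ∈ T ∧ a x.1 = a x.2 ∧ x.1 ≠ x.2 := by
    intro x hx
    obtain ⟨h1, h2⟩ := Finset.mem_filter.mp hx
    obtain ⟨h3, h4⟩ := Finset.mem_filter.mp h1
    obtain ⟨h5, h6⟩ := Finset.mem_product.mp h3
    exact ⟨h5, h6, h4, h2⟩
  set D := Q2.image (fun x => x.1 - x.2) with hD
  have hDcard : (D.card : ℝ) ≤ 300 * (lam * S ^ 2 / q) := by
    have g1 := hT v₁ hv₁
    have g2 := hT v₂ hv₂
    have hb : ∀ v ∈ T, |(v.2 : ℝ)| ≤ 2 * S ∧ |(v.1 : ℝ) - β * v.2| ≤ 8 * lam * S := by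
      intro v hv
      obtain ⟨-, k1, k2, k3, -⟩ := hT v hv
      have k4 : (0 : ℝ) < v.2 := by exact_mod_cast k1
      refine ⟨by rw [abs_of_pos k4]; exact k2, k3.trans ?_⟩
      have : 0 ≤ lam * S := by positivity
      nlinarith
    have hne : v₁.1 * v₂.2 ≠ v₂.1 * v₁.2 := by
      intro he
      apply hv12
      have h1 : v₁.2 ∣ v₂.2 := by
        have : v₁.2 ∣ v₁.1 * v₂.2 := ⟨v₂.1, by rw [he, mul_comm]⟩
        exact g1.1.symm.dvd_of_dvd_mul_left this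
      have h2 : v₂.2 ∣ v₁.2 := by
        have : v₂.2 ∣ v₂.1 * v₁.2 := ⟨v₁.1, by rw [← he, mul_comm]⟩
        exact g2.1.symm.dvd_of_dvd_mul_left this
      exact huniq v₁ hv₁ v₂ hv₂ (Int.dvd_antisymm g1.2.1.le g2.2.1.le h1 h2)
    apply lat (t := t) hq hS0 hlam g1.1 g1.2.2.2.2.1 g2.2.2.2.2.1 hne (hb v₁ hv₁) (hb v₂ hv₂) D
    intro v hv
    obtain ⟨x, hx, rfl⟩ := Finset.mem_image.mp hv
    obtain ⟨h1, h2, -, -⟩ := hmem x hx
    obtain ⟨-, k1, k2, k3, k4, -⟩ := hT x.1 h1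
    obtain ⟨-, l1, l2, l3, l4, -⟩ := hT x.2 h2
    have k1' : (0 : ℝ) < x.1.2 := by exact_mod_cast k1
    have l1' : (0 : ℝ) < x.2.2 := by exact_mod_cast l1
    refine ⟨?_, ?_, ?_⟩
    · have h3 := dvd_sub k4 l4
      have e : x.1.1 - t * x.1.2 - (x.2.1 - t * x.2.2) = (x.1 - x.2).1 - t * (x.1 - x.2).2 := by
        simp only [Prod.fst_sub, Prod.snd_sub]
        ring
      rwa [e] at h3
    · simp only [Prod.snd_sub]
      push_cast
      rw [abs_le]
      constructor <;> linarith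
    · simp only [Prod.fst_sub, Prod.snd_sub]
      push_cast
      obtain ⟨a1, a2⟩ := abs_le.mp k3
      obtain ⟨b1, b2⟩ := abs_le.mp l3
      rw [abs_le]
      constructor <;> linarith
  have hfib : ∀ v ∈ D, ((Q2.filter fun x => x.1 - x.2 = v).card : ℝ) ≤ (C0 * (2 * S) ^ ε) ^ 2 := by
    intro v hv
    obtain ⟨x0, hx0, hx0v⟩ := Finset.mem_image.mp hv
    obtain ⟨m1, m2, m3, m4⟩ := hmem x0 hx0
    have hσ : v.2 ≠ 0 := by
      intro h0
      apply m4
      apply huniq _ m1 _ m2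
      rw [← hx0v, Prod.snd_sub] at h0
      omega
    have hσS : ((v.2.natAbs : ℕ) : ℝ) ≤ 2 * S := by
      have k1 : (0 : ℝ) < x0.1.2 := by exact_mod_cast (hT _ m1).2.1
      have l1 : (0 : ℝ) < x0.2.2 := by exact_mod_cast (hT _ m2).2.1
      have k2 := (hT _ m1).2.2.1
      have l2 := (hT _ m2).2.2.1
      rw [Nat.cast_natAbs, Int.cast_abs, ← hx0v, Prod.snd_sub]
      push_cast
      rw [abs_le]
      constructor <;> linarith
    have hval : ∀ x ∈ Q2, x.1 - x.2 = v →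
        v.2 = (a x.1) * ((y x.1 : ℤ)) ^ 2 - (a x.1) * ((y x.2 : ℤ)) ^ 2 := by
      intro x hx hxv
      obtain ⟨n1, n2, n3, n4⟩ := hmem x hx
      rw [← hxv, Prod.snd_sub, (hay _ n1).1, (hay _ n2).1, n3]
    have h1 : (Q2.filter fun x => x.1 - x.2 = v).card ≤
        (v.2.natAbs.divisors ×ˢ v.2.natAbs.divisors).card := by
      apply Finset.card_le_card_of_injOn (fun x => (a x.1, ((y x.1 : ℤ) - y x.2).natAbs))
      · intro x hx
        obtain ⟨hx1, hx2⟩ := Finset.mem_filter.mp (Finset.mem_coe.mp hx)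
        have e := hval x hx1 hx2
        have e' : v.2 = (a x.1) * (((y x.1 : ℤ)) - y x.2) * ((y x.1 : ℤ) + y x.2) := by rw [e]; ring
        refine Finset.mem_coe.mpr (Finset.mem_product.mpr ⟨?_, ?_⟩)
        · rw [Nat.mem_divisors]
          refine ⟨?_, Int.natAbs_ne_zero.mpr hσ⟩
          rw [← Int.natCast_dvd_natCast, Int.dvd_natAbs]
          exact ⟨(((y x.1 : ℤ)) - y x.2) * ((y x.1 : ℤ) + y x.2), by rw [e']; ring⟩
        · rw [Nat.mem_divisors]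
          refine ⟨?_, Int.natAbs_ne_zero.mpr hσ⟩
          rw [Int.natAbs_dvd_natAbs]
          exact ⟨(a x.1) * ((y x.1 : ℤ) + y x.2), by rw [e']; ring⟩
      · intro x hx x' hx' hxx
        obtain ⟨hx1, hx2⟩ := Finset.mem_filter.mp (Finset.mem_coe.mp hx)
        obtain ⟨hx1', hx2'⟩ := Finset.mem_filter.mp (Finset.mem_coe.mp hx')
        obtain ⟨n1, n2, n3, n4⟩ := hmem x hx1
        obtain ⟨n1', n2', n3', n4'⟩ := hmem x' hx1'
        simp only [Prod.mk.injEq] at hxx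
        obtain ⟨e1, e2⟩ := d_fib (hval x hx1 hx2) (hval x' hx1' hx2') hσ hxx.1 (hy1 _ n1) (hy1 _ n1') hxx.2
        refine Prod.ext ?_ ?_
        · apply huniq _ n1 _ n1'
          rw [(hay _ n1).1, (hay _ n1').1, hxx.1, e1]
        · apply huniq _ n2 _ n2'
          rw [(hay _ n2).1, (hay _ n2').1, ← n3, ← n3', hxx.1, e2]
    have h2 : ((Q2.filter fun x => x.1 - x.2 = v).card : ℝ) ≤ (v.2.natAbs.divisors.card : ℝ) ^ 2 := by
      rw [Finset.card_product] at h1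
      have h3 : ((Q2.filter fun x => x.1 - x.2 = v).card : ℝ) ≤
          (v.2.natAbs.divisors.card : ℝ) * (v.2.natAbs.divisors.card : ℝ) := by exact_mod_cast h1
      rw [sq]
      exact h3
    have h3 := hdiv v.2.natAbs (Nat.one_le_iff_ne_zero.mpr (Int.natAbs_ne_zero.mpr hσ))
    have h4 : C0 * ((v.2.natAbs : ℕ) : ℝ) ^ ε ≤ C0 * (2 * S) ^ ε :=
      mul_le_mul_of_nonneg_left (Real.rpow_le_rpow (Nat.cast_nonneg _) hσS hε.le) hC0.le
    exact h2.trans (pow_le_pow_left₀ (Nat.cast_nonneg _) (h3.trans h4) 2)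
  have hQ2card : (Q2.card : ℝ) ≤ 300 * (lam * S ^ 2 / q) * (C0 * (2 * S) ^ ε) ^ 2 := by
    have h1 : (Q2.card : ℝ) = ∑ v ∈ D, ((Q2.filter fun x => x.1 - x.2 = v).card : ℝ) := by
      rw [Finset.card_eq_sum_card_image (fun x => x.1 - x.2) Q2]
      push_cast
      rfl
    rw [h1]
    refine (Finset.sum_le_sum hfib).trans ?_
    rw [Finset.sum_const, nsmul_eq_mul]
    exact mul_le_mul_of_nonneg_right hDcard (by positivity)
  set w : ℝ := 25 * G * (C0 * (2 * S) ^ ε) with hw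
  have hw0 : 0 ≤ w := by positivity
  have hG2 : G ^ 2 = lam * S ^ 3 / (U ^ 2 * q) := by
    rw [hG, div_pow, mul_pow, Real.sq_sqrt (by positivity), Real.sq_sqrt hqR.le]
  have hmain : (T.card : ℝ) ^ 2 ≤ 2 * S / U ^ 2 * T.card + w ^ 2 := by
    have h1 : 2 * S / U ^ 2 * (300 * (lam * S ^ 2 / q) * (C0 * (2 * S) ^ ε) ^ 2) ≤ w ^ 2 := by
      have e1 : 2 * S / U ^ 2 * (300 * (lam * S ^ 2 / q) * (C0 * (2 * S) ^ ε) ^ 2) =
          600 * (lam * S ^ 3 / (U ^ 2 * q)) * (C0 * (2 * S) ^ ε) ^ 2 := by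
        field_simp
        ring
      have e2 : w ^ 2 = 625 * (lam * S ^ 3 / (U ^ 2 * q)) * (C0 * (2 * S) ^ ε) ^ 2 := by
        rw [hw, mul_pow, mul_pow, hG2]
        ring
      rw [e1, e2]
      have h2 : 0 ≤ (lam * S ^ 3 / (U ^ 2 * q)) * (C0 * (2 * S) ^ ε) ^ 2 := by positivity
      nlinarith
    have h2 : 2 * S / U ^ 2 * (Q.card : ℝ) ≤ 2 * S / U ^ 2 * (T.card + Q2.card) :=
      mul_le_mul_of_nonneg_left hsplit (by positivity)
    have h3 : 2 * S / U ^ 2 * (Q2.card : ℝ) ≤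
        2 * S / U ^ 2 * (300 * (lam * S ^ 2 / q) * (C0 * (2 * S) ^ ε) ^ 2) :=
      mul_le_mul_of_nonneg_left hQ2card (by positivity)
    have h4 := hCS.trans h2
    rw [mul_add] at h4
    linarith
  have hfinal := d_quad (by positivity) hw0 hmain
  refine hfinal.trans ?_
  have e1 : w = 25 * (C0 * 2 ^ ε) * S ^ ε * G := by
    rw [hw, Real.mul_rpow (by norm_num) hS0.le]
    ring
  have e2 : 2 * S / U ^ 2 = 2 * (S / U ^ 2) := by ring
  rw [e1, e2]
  have hSU0 : 0 ≤ S / U ^ 2 := by positivity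
  have k1 : 2 * (S / U ^ 2) ≤ 2 * S ^ ε * (S / U ^ 2) := by nlinarith
  have k2 : 0 ≤ 25 * (C0 * 2 ^ ε) * S ^ ε * (S / U ^ 2) := by positivity
  have k3 : 0 ≤ 2 * S ^ ε * G := by positivity
  have e3 : (2 + 25 * (C0 * 2 ^ ε)) * S ^ ε * (S / U ^ 2 + G) =
      2 * S ^ ε * (S / U ^ 2) + 25 * (C0 * 2 ^ ε) * S ^ ε * (S / U ^ 2) + 2 * S ^ ε * G +
        25 * (C0 * 2 ^ ε) * S ^ ε * G := by ring
  rw [e3]
  linarith

end Pool.Agent.H80.SH
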