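import Pool.Agent.H12.EH.Bcnt
import Pool.Agent.H80.SH.Csn
import Pool.Agent.H80.SH.Dif

/-!
[H80 SH ECNT]  Pairs with `s = a y²`, `y ~ U`, `z² ∣ Gf`, `z ~ Z`: the bound by differences.

For fixed `z` the residue `t` modulo `q = z²` exactly as in `bcnt_z` (Pool/Agent/H12/EH/Bcnt.lean); `Fib` gives `S ≤ s ≤ 2 S` and `|r - Re ρ_v s| ≤ 2 lam s ≤ 4 lam S`.
In a class `csn` (if `q ≤ 8 lam S`) or `dif` (exponent `ε / 2`): at most
`C S^(ε/2) (S / U² + √(lam S³) / (U √q) + S / U · lam S / q)`; at most `K τ(z²)² ≤ C z^(ε)` classes (`rts`, `divisor_bound`), at most `2 Z` numbers `z`;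
`√q = z ≥ Z`.  (`S` is at least 1.)
-/

set_option autoImplicit false

namespace Pool.Agent.H80.SH

open Pool.Agent.H12.EH

/-- the conditions in a class -/
private def Cls (z : ℕ) (β S lam U : ℝ) (t : ℤ) (p : ℤ × ℤ) : Prop :=
  IsCoprime p.1 p.2 ∧ 0 < p.2 ∧ (p.2 : ℝ) ≤ 2 * S ∧ |(p.1 : ℝ) - β * p.2| ≤ 4 * lam * S ∧
    (z : ℤ) ^ 2 ∣ p.1 - t * p.2 ∧ ∃ a y : ℕ, p.2 = a * y ^ 2 ∧ U ≤ y ∧ (y : ℝ) ≤ 2 * U

/-- the pairs with a fixed `z` -/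
private theorem ecnt_z {A B : ℤ} {ρ : Fin 3 → ℂ} (v : Fin 3) (S lam U M : ℝ) (hlam : 0 < lam)
    (hM : 0 ≤ M) (z : ℕ) (hz : 0 < z) (T : Finset (ℤ × ℤ))
    (hT : ∀ p ∈ T, IsCoprime p.1 p.2 ∧ 0 < p.2 ∧ Fib ρ v S lam p.1 p.2 ∧
      (∃ a y : ℕ, p.2 = a * y ^ 2 ∧ U ≤ y ∧ (y : ℝ) ≤ 2 * U) ∧ (z : ℤ) ^ 2 ∣ Gf A B p.1 p.2)
    (hcl : ∀ (t : ℤ) (T' : Finset (ℤ × ℤ)), (∀ p ∈ T', Cls z (ρ v).re S lam U t p) →
      (T'.card : ℝ) ≤ M) :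
    (T.card : ℝ) ≤ M *
      ((Finset.range (z ^ 2)).filter
        (fun t : ℕ => ((z ^ 2 : ℕ) : ℤ) ∣ (t : ℤ) ^ 3 + A * t + B)).card := by
  have hz2 : (0 : ℤ) < (z : ℤ) ^ 2 := by positivity
  -- the residue
  have key : ∀ p ∈ T, ∃ t : ℕ, t < z ^ 2 ∧ (z : ℤ) ^ 2 ∣ p.1 - t * p.2 ∧
      (z : ℤ) ^ 2 ∣ (t : ℤ) ^ 3 + A * t + B := by
    intro p hp
    obtain ⟨hc, hs, -, -, hd⟩ := hT p hp
    have hcop : IsCoprime p.2 ((z : ℤ) ^ 2) := by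
      apply IsCoprime.pow_right
      have h1 : IsCoprime p.2 (Gf A B p.1 p.2) := by
        have : Gf A B p.1 p.2 = p.1 ^ 3 + p.2 * (A * p.1 * p.2 + B * p.2 ^ 2) := by
          unfold Gf; ring
        rw [this]
        exact (IsCoprime.add_mul_left_right_iff).2 (IsCoprime.pow_right hc.symm)
      exact h1.of_isCoprime_of_dvd_right ((dvd_pow_self _ (by norm_num)).trans hd)
    obtain ⟨a, b, hab⟩ := hcop
    have h0 : 0 ≤ (p.1 * a) % ((z : ℤ) ^ 2) := Int.emod_nonneg _ hz2.ne'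
    have h1 : (p.1 * a) % ((z : ℤ) ^ 2) < (z : ℤ) ^ 2 := Int.emod_lt_of_pos _ hz2
    refine ⟨((p.1 * a) % ((z : ℤ) ^ 2)).toNat, ?_, ?_, ?_⟩
    · have : (((p.1 * a) % ((z : ℤ) ^ 2)).toNat : ℤ) < ((z ^ 2 : ℕ) : ℤ) := by
        rw [Int.toNat_of_nonneg h0]; push_cast; exact h1
      exact_mod_cast this
    · rw [Int.toNat_of_nonneg h0, Int.emod_def]
      refine ⟨p.1 * b + (p.1 * a) / ((z : ℤ) ^ 2) * p.2, ?_⟩
      linear_combination (-p.1) * hab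
    · rw [Int.toNat_of_nonneg h0]
      set t := (p.1 * a) % ((z : ℤ) ^ 2) with ht
      have h2 : (z : ℤ) ^ 2 ∣ p.1 - t * p.2 := by
        rw [ht, Int.emod_def]
        refine ⟨p.1 * b + (p.1 * a) / ((z : ℤ) ^ 2) * p.2, ?_⟩
        linear_combination (-p.1) * hab
      have h3 : (z : ℤ) ^ 2 ∣ p.2 ^ 3 * (t ^ 3 + A * t + B) := by
        have : p.2 ^ 3 * (t ^ 3 + A * t + B) = Gf A B p.1 p.2 -
            (p.1 - t * p.2) * (p.1 ^ 2 + p.1 * (t * p.2) + (t * p.2) ^ 2 + A * p.2 ^ 2) := by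
          unfold Gf; ring
        rw [this]
        exact dvd_sub hd (h2.mul_right _)
      exact (IsCoprime.pow_left (m := 3) ⟨a, b, hab⟩ :
        IsCoprime (p.2 ^ 3) ((z : ℤ) ^ 2)).symm.dvd_of_dvd_mul_left h3
  choose! f hf using key
  have h1 := Finset.card_le_mul_card_image_of_maps_to (f := f) (s := T)
    (t := (Finset.range (z ^ 2)).filter
      (fun t : ℕ => ((z ^ 2 : ℕ) : ℤ) ∣ (t : ℤ) ^ 3 + A * t + B))
    (fun p hp => by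
      rw [Finset.mem_filter, Finset.mem_range]
      refine ⟨(hf p hp).1, ?_⟩
      push_cast
      exact (hf p hp).2.2) ⌊M⌋₊ (by
      intro t _
      rw [Nat.le_floor_iff hM]
      refine hcl t (T.filter (fun a => f a = t)) ?_
      intro p hp
      rw [Finset.mem_filter] at hp
      obtain ⟨hc, hs, hF, hay, -⟩ := hT p hp.1
      have hsr : (0 : ℝ) < (p.2 : ℝ) := by exact_mod_cast hs
      have h3 : |((p.1 : ℝ) - (ρ v).re * p.2)| ≤ 2 * lam * p.2 := by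
        refine le_trans ?_ hF.2.2.2
        have h4 := Complex.abs_re_le_norm ((p.1 : ℂ) - ρ v * p.2)
        have h5 : ((p.1 : ℂ) - ρ v * p.2).re = (p.1 : ℝ) - (ρ v).re * p.2 := by
          simp [Complex.sub_re, Complex.mul_re]
        rwa [h5] at h4
      have h6 : 2 * lam * p.2 ≤ 4 * lam * S := by
        have h7 := mul_le_mul_of_nonneg_left hF.2.1 (by positivity : 0 ≤ 2 * lam)
        calc 2 * lam * p.2 ≤ 2 * lam * (2 * S) := h7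
          _ = 4 * lam * S := by ring
      refine ⟨hc, hs, hF.2.1, h3.trans h6, ?_, hay⟩
      have a1 := (hf p hp.1).2.1
      rw [hp.2] at a1
      exact a1)
  have h2 : (T.card : ℝ) ≤ (⌊M⌋₊ : ℝ) * ((Finset.range (z ^ 2)).filter
      (fun t : ℕ => ((z ^ 2 : ℕ) : ℤ) ∣ (t : ℤ) ^ 3 + A * t + B)).card := by exact_mod_cast h1
  exact h2.trans (mul_le_mul_of_nonneg_right (Nat.floor_le hM) (Nat.cast_nonneg _))

/-- the bound in a class -/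
private theorem cls_bound {C0 ε : ℝ} (hC0 : 0 < C0) (hε : 0 < ε)
    (hdif : ∀ (q t : ℤ) (β S lam U : ℝ), 0 < q → 1 ≤ S → 0 < lam → 1 ≤ U →
      U ^ 2 ≤ 2 * S → 8 * lam * S < q → ∀ T : Finset (ℤ × ℤ),
      (∀ p ∈ T, IsCoprime p.1 p.2 ∧ 0 < p.2 ∧ (p.2 : ℝ) ≤ 2 * S ∧
        |(p.1 : ℝ) - β * p.2| ≤ 4 * lam * S ∧
        q ∣ p.1 - t * p.2 ∧ ∃ a y : ℕ, p.2 = a * y ^ 2 ∧ U ≤ y ∧ (y : ℝ) ≤ 2 * U) →
      (T.card : ℝ) ≤ C0 * S ^ ε * (S / U ^ 2 + √(lam * S ^ 3) / (U * √q)))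
    (S lam U Z β : ℝ) (hS : 1 ≤ S) (hlam : 0 < lam) (hU : 1 ≤ U) (hZ : 1 ≤ Z)
    (hUS : U ^ 2 ≤ 2 * S) (z : ℕ) (hz : Z ≤ z) (t : ℤ) (T : Finset (ℤ × ℤ))
    (hT : ∀ p ∈ T, Cls z β S lam U t p) :
    (T.card : ℝ) ≤ (C0 + 64) * S ^ ε *
      (S / U ^ 2 + √(lam * S ^ 3) / (U * Z) + lam * S ^ 2 / (U * Z ^ 2)) := by
  have hz0 : (0 : ℝ) < z := by linarith
  have hzn : 0 < z := by exact_mod_cast hz0
  have hZ0 : 0 < Z := by linarith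
  have hU0 : 0 < U := by linarith
  have hS0 : 0 < S := by linarith
  have hq : (0 : ℤ) < (z : ℤ) ^ 2 := by positivity
  have hqr : (((z : ℤ) ^ 2 : ℤ) : ℝ) = (z : ℝ) ^ 2 := by push_cast; ring
  have hSε : 1 ≤ S ^ ε := Real.one_le_rpow hS hε.le
  have hSε0 : 0 < S ^ ε := by linarith
  have b1 : 0 ≤ S / U ^ 2 := by positivity
  have b2 : 0 ≤ √(lam * S ^ 3) / (U * Z) := by positivity
  have b3 : 0 ≤ lam * S ^ 2 / (U * Z ^ 2) := by positivity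
  rcases le_or_gt ((((z : ℤ) ^ 2 : ℤ) : ℝ)) (8 * lam * S) with h | h
  · have h1 := csn (q := (z : ℤ) ^ 2) (t := t) hq (β := β) hS hlam hU h T (fun p hp => by
      obtain ⟨-, c1, c2, c3, c4, c5⟩ := hT p hp
      exact ⟨c1, c2, c3, c4, c5⟩)
    rw [hqr] at h1
    have h2 : S / U * (lam * S / (z : ℝ) ^ 2) ≤ lam * S ^ 2 / (U * Z ^ 2) := by
      have e1 : S / U * (lam * S / (z : ℝ) ^ 2) = lam * S ^ 2 / (U * (z : ℝ) ^ 2) := by
        field_simp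
      rw [e1]
      apply div_le_div_of_nonneg_left (by positivity) (by positivity)
      exact mul_le_mul_of_nonneg_left (pow_le_pow_left₀ hZ0.le hz 2) hU0.le
    calc (T.card : ℝ) ≤ 64 * (S / U * (lam * S / (z : ℝ) ^ 2)) := h1
      _ ≤ 64 * (lam * S ^ 2 / (U * Z ^ 2)) := mul_le_mul_of_nonneg_left h2 (by norm_num)
      _ ≤ (C0 + 64) * S ^ ε * (lam * S ^ 2 / (U * Z ^ 2)) := by
          apply mul_le_mul_of_nonneg_right _ b3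
          nlinarith
      _ ≤ _ := by
          apply mul_le_mul_of_nonneg_left _ (by positivity)
          linarith
  · have h1 := hdif ((z : ℤ) ^ 2) t β S lam U hq hS hlam hU hUS h T hT
    rw [hqr, Real.sqrt_sq hz0.le] at h1
    have h2 : √(lam * S ^ 3) / (U * (z : ℝ)) ≤ √(lam * S ^ 3) / (U * Z) := by
      apply div_le_div_of_nonneg_left (Real.sqrt_nonneg _) (by positivity)
      exact mul_le_mul_of_nonneg_left hz hU0.le
    calc (T.card : ℝ) ≤ C0 * S ^ ε * (S / U ^ 2 + √(lam * S ^ 3) / (U * (z : ℝ))) := h1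
      _ ≤ C0 * S ^ ε *
          (S / U ^ 2 + √(lam * S ^ 3) / (U * Z) + lam * S ^ 2 / (U * Z ^ 2)) := by
          apply mul_le_mul_of_nonneg_left _ (by positivity)
          linarith
      _ ≤ _ := by
          apply mul_le_mul_of_nonneg_right _ (by positivity)
          nlinarith

theorem ecnt {A B : ℤ} (hD : 4 * A ^ 3 + 27 * B ^ 2 ≠ 0) (ρ : Fin 3 → ℂ) (ε : ℝ)
    (hε : 0 < ε) : ∃ C : ℝ, 0 < C ∧ ∀ (v : Fin 3) (S lam U Z : ℝ), 1 ≤ S → 0 < lam → 1 ≤ U → 1 ≤ Z → U ^ 2 ≤ 2 * S →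
    ∀ T : Finset (ℤ × ℤ), (∀ p ∈ T, IsCoprime p.1 p.2 ∧ 0 < p.2 ∧ Fib ρ v S lam p.1 p.2 ∧
      ∃ a y z : ℕ, p.2 = a * y ^ 2 ∧ U ≤ y ∧ (y : ℝ) ≤ 2 * U ∧ Z ≤ z ∧ (z : ℝ) ≤ 2 * Z ∧
        (z : ℤ) ^ 2 ∣ Gf A B p.1 p.2) →
    (T.card : ℝ) ≤ C * (S * Z) ^ ε * (Z * (S / U ^ 2) + √(lam * S ^ 3) / U + lam * S ^ 2 / (U * Z)) := by
  obtain ⟨K, hK, hrts⟩ := rts A B hD
  obtain ⟨C1, hC1, hdiv⟩ := Pool.Agent.H5.W.divisor_bound (ε / 4) (by positivity)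
  obtain ⟨C0, hC0, hdif⟩ := dif ε hε
  refine ⟨2 * (K * C1 ^ 2 * 2 ^ ε) * (C0 + 64), by positivity, ?_⟩
  intro v S lam U Z hS hlam hU hZ hUS T hT
  have hZ0 : 0 < Z := by linarith
  have hS0 : 0 < S := by linarith
  have hU0 : 0 < U := by linarith
  set N : ℝ := S / U ^ 2 + √(lam * S ^ 3) / (U * Z) + lam * S ^ 2 / (U * Z ^ 2) with hN
  have hN0 : 0 ≤ N := by positivity
  set M : ℝ := (C0 + 64) * S ^ ε * N with hMdef
  have hM0 : 0 ≤ M := by positivity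
  -- the union over `z`
  classical
  set Zs : Finset ℕ := (Finset.Icc ⌈Z⌉₊ ⌊2 * Z⌋₊) with hZs
  have hsub : T ⊆ Zs.biUnion (fun z => T.filter (fun p => (z : ℤ) ^ 2 ∣ Gf A B p.1 p.2)) := by
    intro p hp
    obtain ⟨-, -, hF, a, y, z, -, -, -, hz1, hz2, hgz⟩ := hT p hp
    rw [Finset.mem_biUnion]
    refine ⟨z, ?_, ?_⟩
    · rw [hZs, Finset.mem_Icc]
      exact ⟨Nat.ceil_le.2 hz1, Nat.le_floor hz2⟩
    · rw [Finset.mem_filter]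
      exact ⟨hp, hgz⟩
  have hZcard : (Zs.card : ℝ) ≤ 2 * Z := by
    rw [hZs, Nat.card_Icc]
    have h1 : (⌊2 * Z⌋₊ : ℝ) ≤ 2 * Z := Nat.floor_le (by positivity)
    have h2 : Z ≤ ⌈Z⌉₊ := Nat.le_ceil Z
    have h3 : (⌊2 * Z⌋₊ + 1 - ⌈Z⌉₊ : ℕ) ≤ (2 * Z : ℝ) + 1 - Z := by
      rcases Nat.le_total ⌈Z⌉₊ (⌊2 * Z⌋₊ + 1) with h | h
      · rw [Nat.cast_sub h]
        push_cast
        linarith
      · rw [Nat.sub_eq_zero_of_le h]
        push_cast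
        linarith
    linarith
  have hone : ∀ z ∈ Zs, ((T.filter (fun p => (z : ℤ) ^ 2 ∣ Gf A B p.1 p.2)).card : ℝ) ≤
      M * (K * C1 ^ 2 * 2 ^ ε * Z ^ ε) := by
    intro z hz
    rw [hZs, Finset.mem_Icc] at hz
    have hz1 : Z ≤ z := (Nat.le_ceil Z).trans (by exact_mod_cast hz.1)
    have hz2 : (z : ℝ) ≤ 2 * Z := (Nat.cast_le.2 hz.2).trans (Nat.floor_le (by positivity))
    have hz0 : 0 < z := by
      have : (0 : ℝ) < z := by linarith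
      exact_mod_cast this
    have hzr : (0 : ℝ) < z := by exact_mod_cast hz0
    have h1 := ecnt_z (A := A) (B := B) (ρ := ρ) v S lam U M hlam hM0 z hz0
      (T.filter (fun p => (z : ℤ) ^ 2 ∣ Gf A B p.1 p.2)) (by
        intro p hp
        rw [Finset.mem_filter] at hp
        obtain ⟨a, b, d, a', y, -, e1, e2, e3, -⟩ := hT p hp.1
        exact ⟨a, b, d, ⟨a', y, e1, e2, e3⟩, hp.2⟩)
      (fun t T' hT' => cls_bound hC0 hε hdif S lam U Z (ρ v).re hS hlam hU hZ hUS z hz1 t T' hT')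
    refine h1.trans (mul_le_mul_of_nonneg_left ?_ hM0)
    have h2 := hrts (z ^ 2) (by positivity)
    have h3 : (((Finset.range (z ^ 2)).filter (fun t : ℕ => ((z ^ 2 : ℕ) : ℤ) ∣ (t : ℤ) ^ 3 + A * t + B)).card : ℝ)
        ≤ (K : ℝ) * ((z ^ 2).divisors.card : ℝ) ^ 2 := by exact_mod_cast h2
    have h4 := hdiv (z ^ 2) (Nat.one_le_iff_ne_zero.2 (by positivity))
    have h5 : ((z ^ 2).divisors.card : ℝ) ^ 2 ≤ (C1 * ((z ^ 2 : ℕ) : ℝ) ^ (ε / 4)) ^ 2 :=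
      pow_le_pow_left₀ (Nat.cast_nonneg _) h4 2
    have h6 : (C1 * ((z ^ 2 : ℕ) : ℝ) ^ (ε / 4)) ^ 2 = C1 ^ 2 * (z : ℝ) ^ ε := by
      have e2 : ((z ^ 2 : ℕ) : ℝ) ^ (ε / 4) = (z : ℝ) ^ (ε / 2) := by
        push_cast
        rw [← Real.rpow_natCast (z : ℝ) 2, ← Real.rpow_mul hzr.le]
        congr 1
        push_cast
        ring
      have e3 : ((z : ℝ) ^ (ε / 2)) ^ 2 = (z : ℝ) ^ ε := by
        rw [← Real.rpow_natCast _ 2, ← Real.rpow_mul hzr.le]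
        congr 1
        push_cast
        ring
      rw [e2, mul_pow, e3]
    have h7 : (z : ℝ) ^ ε ≤ 2 ^ ε * Z ^ ε := by
      rw [← Real.mul_rpow (by norm_num) hZ0.le]
      exact Real.rpow_le_rpow hzr.le hz2 hε.le
    calc _ ≤ _ := h3
      _ ≤ (K : ℝ) * (C1 ^ 2 * (z : ℝ) ^ ε) := by
          rw [h6] at h5
          exact mul_le_mul_of_nonneg_left h5 (Nat.cast_nonneg _)
      _ ≤ (K : ℝ) * (C1 ^ 2 * (2 ^ ε * Z ^ ε)) := by gcongr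
      _ = _ := by ring
  have h1 : (T.card : ℝ) ≤ ∑ z ∈ Zs, ((T.filter (fun p => (z : ℤ) ^ 2 ∣ Gf A B p.1 p.2)).card : ℝ) := by
    have := (Finset.card_le_card hsub).trans Finset.card_biUnion_le
    exact_mod_cast this
  have h2 := h1.trans (Finset.sum_le_card_nsmul _ _ _ hone)
  rw [nsmul_eq_mul] at h2
  have hP : 0 ≤ M * (K * C1 ^ 2 * 2 ^ ε * Z ^ ε) := by positivity
  have hNZ : Z * N = Z * (S / U ^ 2) + √(lam * S ^ 3) / U + lam * S ^ 2 / (U * Z) := by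
    rw [hN]
    field_simp
  calc (T.card : ℝ) ≤ _ := h2
    _ ≤ 2 * Z * (M * (K * C1 ^ 2 * 2 ^ ε * Z ^ ε)) := mul_le_mul_of_nonneg_right hZcard hP
    _ = 2 * (K * C1 ^ 2 * 2 ^ ε) * (C0 + 64) * (S ^ ε * Z ^ ε) * (Z * N) := by
        rw [hMdef]
        ring
    _ = _ := by rw [hNZ, Real.mul_rpow hS0.le hZ0.le]

end Pool.Agent.H80.SH
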