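import Pool.Agent.H12.EH.Bcnt

/-!
[H80 SH FBD]  Bounds for the form in a fiber.

`Gf_norm`: `|Gf| = ∏ ‖r - ρ_u s‖`.  Lower bound: every factor is at least `lam s ≥ lam S`.
Upper bound: the factor `v` is at most `2 lam s ≤ 4 lam S`, the others at most `2 lam s + ‖ρ_u - ρ_v‖ s ≤ (4 + 4 R) S (1 + lam)`.
-/

set_option autoImplicit false

namespace Pool.Agent.H80.SH

open Pool.Agent.H12.EH

theorem gf_low3 {A B : ℤ} {ρ : Fin 3 → ℂ} (hρ : Roots A B ρ) (v : Fin 3) (S lam : ℝ) (r s : ℤ) (hS : 0 < S)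
    (hlam : 0 < lam) (h : Fib ρ v S lam r s) : (lam * S) ^ 3 ≤ |((Gf A B r s : ℤ) : ℝ)| := by
  obtain ⟨hs1, _, hF1, _⟩ := h
  rw [Gf_norm hρ]
  have h0 : 0 ≤ lam * S := by positivity
  have h1 : ∀ u, lam * S ≤ ‖(r : ℂ) - ρ u * s‖ := fun u =>
    (mul_le_mul_of_nonneg_left hs1 hlam.le).trans (hF1 u)
  have e1 : (lam * S) ^ 3 = lam * S * (lam * S) * (lam * S) := by ring
  rw [e1]
  exact mul_le_mul (mul_le_mul (h1 0) (h1 1) h0 (norm_nonneg _)) (h1 2) h0 (by positivity)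

theorem gf_upf {A B : ℤ} {ρ : Fin 3 → ℂ} (hρ : Roots A B ρ) : ∃ C₀ : ℝ, 1 ≤ C₀ ∧
    ∀ (v : Fin 3) (S lam : ℝ) (r s : ℤ), 0 < S → 0 < lam → Fib ρ v S lam r s →
      |((Gf A B r s : ℤ) : ℝ)| ≤ C₀ * (lam * S ^ 3 * (1 + lam) ^ 2) := by
  set M : ℝ := ‖ρ 0‖ + ‖ρ 1‖ + ‖ρ 2‖ with hM
  have hM0 : 0 ≤ M := by positivity
  have hMu : ∀ u, ‖ρ u‖ ≤ M := by
    intro u
    have h0 := norm_nonneg (ρ 0)
    have h1 := norm_nonneg (ρ 1)
    have h2 := norm_nonneg (ρ 2)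
    fin_cases u
    · change ‖ρ 0‖ ≤ M
      rw [hM]
      linarith
    · change ‖ρ 1‖ ≤ M
      rw [hM]
      linarith
    · change ‖ρ 2‖ ≤ M
      rw [hM]
      linarith
  refine ⟨4 * (4 + 4 * M) ^ 2, by nlinarith [sq_nonneg M], ?_⟩
  intro v S lam r s hS hlam hF
  obtain ⟨hs1, hs2, _, hF2⟩ := hF
  have hs : (0 : ℝ) < s := lt_of_lt_of_le hS hs1
  have hv : ‖(r : ℂ) - ρ v * s‖ ≤ 4 * lam * S := by
    have : 2 * lam * (s : ℝ) ≤ 2 * lam * (2 * S) := mul_le_mul_of_nonneg_left hs2 (by positivity)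
    calc _ ≤ _ := hF2
      _ ≤ _ := this
      _ = _ := by ring
  have hu : ∀ u, ‖(r : ℂ) - ρ u * s‖ ≤ (4 + 4 * M) * (S * (1 + lam)) := by
    intro u
    have h3 : ‖(r : ℂ) - ρ u * s‖ ≤ ‖(r : ℂ) - ρ v * s‖ + ‖(ρ v - ρ u) * (s : ℂ)‖ := by
      have : (r : ℂ) - ρ u * s = ((r : ℂ) - ρ v * s) + (ρ v - ρ u) * (s : ℂ) := by ring
      rw [this]
      exact norm_add_le _ _
    rw [norm_mul, Complex.norm_intCast, abs_of_pos hs] at h3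
    have h4 : ‖ρ v - ρ u‖ ≤ 2 * M := by
      have := norm_sub_le (ρ v) (ρ u)
      have h5 := hMu u
      have h6 := hMu v
      linarith
    have h5 : ‖ρ v - ρ u‖ * (s : ℝ) ≤ 2 * M * (2 * S) := mul_le_mul h4 hs2 hs.le (by positivity)
    have h6 : 0 ≤ M * S * lam := by positivity
    have h7 : 0 ≤ S * lam := by positivity
    calc _ ≤ _ := h3
      _ ≤ 4 * lam * S + 2 * M * (2 * S) := add_le_add hv h5
      _ ≤ _ := by nlinarith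
  rw [Gf_norm hρ]
  have hK : 0 ≤ (4 + 4 * M) * (S * (1 + lam)) := by positivity
  have hL : 0 ≤ 4 * lam * S := by positivity
  have e1 : 4 * (4 + 4 * M) ^ 2 * (lam * S ^ 3 * (1 + lam) ^ 2) =
      4 * lam * S * ((4 + 4 * M) * (S * (1 + lam))) * ((4 + 4 * M) * (S * (1 + lam))) := by ring
  rw [e1]
  fin_cases v
  · exact mul_le_mul (mul_le_mul hv (hu 1) (norm_nonneg _) hL) (hu 2) (norm_nonneg _) (by positivity)
  · calc ‖(r : ℂ) - ρ 0 * s‖ * ‖(r : ℂ) - ρ 1 * s‖ * ‖(r : ℂ) - ρ 2 * s‖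
        ≤ ((4 + 4 * M) * (S * (1 + lam))) * (4 * lam * S) * ((4 + 4 * M) * (S * (1 + lam))) :=
          mul_le_mul (mul_le_mul (hu 0) hv (norm_nonneg _) hK) (hu 2) (norm_nonneg _) (by positivity)
      _ = _ := by ring
  · calc ‖(r : ℂ) - ρ 0 * s‖ * ‖(r : ℂ) - ρ 1 * s‖ * ‖(r : ℂ) - ρ 2 * s‖
        ≤ ((4 + 4 * M) * (S * (1 + lam))) * ((4 + 4 * M) * (S * (1 + lam))) * (4 * lam * S) :=
          mul_le_mul (mul_le_mul (hu 0) (hu 1) (norm_nonneg _) hK) hv (norm_nonneg _) (by positivity)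
      _ = _ := by ring

end Pool.Agent.H80.SH
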