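import Mathlib

/-!
[H80 SH LAT]  Points of a plane lattice in a box which contains two independent lattice vectors.

`ν = max(|σ₁| / (2 S), |ρ₁ - β σ₁| / (8 lam S))`, `0 < ν ≤ 1` (`v₁ = (ρ₁, σ₁) ≠ 0`).  For `v = (ρ, σ)` in the box
`|ρ₁ σ - ρ σ₁| = |(ρ₁ - β σ₁) σ - (ρ - β σ) σ₁| ≤ 32 ν lam S²`, and `q ∣ ρ₁ σ - ρ σ₁`: at most `1 + 64 ν lam S² / q` values.  If the value is the same
for `v, v'` then `v - v' = m v₁` (`v₁` is primitive), so the coordinate in which `ν` is attained gives at most `1 + 2 / ν` points.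
`q ≤ |det(v₁, v₂)| ≤ 32 ν lam S²`, so `1 ≤ 1 / ν ≤ 32 lam S² / q`.  Total at most `288 lam S² / q`.
(To avoid `ν`: the two cases `|ρ₁ - β σ₁| ≤ 4 lam |σ₁|`, where `v ↦ σ` counts with spacing `|σ₁|`, and the opposite one.)
-/

set_option autoImplicit false

namespace Pool.Agent.H80.SH

private theorem card_int (M : Finset ℤ) (L : ℝ) (hL : 0 ≤ L)
    (h : ∀ m ∈ M, ∀ m' ∈ M, ((m : ℝ) - m') ≤ L) : (M.card : ℝ) ≤ L + 1 := by
  rcases M.eq_empty_or_nonempty with rfl | hM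
  · simp
    linarith
  · have hsub : M ⊆ Finset.Icc (M.min' hM) (M.min' hM + ⌊L⌋) := by
      intro m hm
      rw [Finset.mem_Icc]
      refine ⟨M.min'_le m hm, ?_⟩
      have h1 := h m hm _ (M.min'_mem hM)
      have h2 : m - M.min' hM ≤ ⌊L⌋ := by
        rw [Int.le_floor]
        push_cast
        exact h1
      linarith
    have h1 := Finset.card_le_card hsub
    rw [Int.card_Icc] at h1
    have h0 : 0 ≤ ⌊L⌋ := Int.floor_nonneg.2 hL
    have h2 : ((M.min' hM + ⌊L⌋ + 1 - M.min' hM).toNat : ℤ) = ⌊L⌋ + 1 := by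
      rw [Int.toNat_of_nonneg (by linarith)]
      ring
    have h3 : (M.card : ℤ) ≤ ⌊L⌋ + 1 := by
      rw [← h2]
      exact_mod_cast h1
    have h4 : (M.card : ℝ) ≤ (⌊L⌋ : ℝ) + 1 := by exact_mod_cast h3
    have h5 := Int.floor_le L
    linarith

theorem lat {q t : ℤ} (hq : 0 < q) {β S lam : ℝ} (hS : 0 < S) (hlam : 0 < lam) {v₁ v₂ : ℤ × ℤ}
    (h1 : IsCoprime v₁.1 v₁.2) (h1q : q ∣ v₁.1 - t * v₁.2) (h2q : q ∣ v₂.1 - t * v₂.2)
    (hne : v₁.1 * v₂.2 ≠ v₂.1 * v₁.2)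
    (b1 : |(v₁.2 : ℝ)| ≤ 2 * S ∧ |(v₁.1 : ℝ) - β * v₁.2| ≤ 8 * lam * S)
    (b2 : |(v₂.2 : ℝ)| ≤ 2 * S ∧ |(v₂.1 : ℝ) - β * v₂.2| ≤ 8 * lam * S) (D : Finset (ℤ × ℤ))
    (hD : ∀ v ∈ D, q ∣ v.1 - t * v.2 ∧ |(v.2 : ℝ)| ≤ 2 * S ∧ |(v.1 : ℝ) - β * v.2| ≤ 8 * lam * S) :
    (D.card : ℝ) ≤ 300 * (lam * S ^ 2 / q) := by
  classical
  obtain ⟨ρ₁, σ₁⟩ := v₁
  obtain ⟨ρ₂, σ₂⟩ := v₂
  simp only at h1 h1q h2q hne b1 b2
  have hqr : (0 : ℝ) < q := by exact_mod_cast hq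
  have h2S : 0 < 2 * S := by positivity
  have h8 : 0 < 8 * lam * S := by positivity
  obtain ⟨ν, hν0, hν1, ha, hb, hor⟩ : ∃ ν : ℝ, 0 < ν ∧ ν ≤ 1 ∧ |(σ₁ : ℝ)| ≤ 2 * S * ν ∧
      |(ρ₁ : ℝ) - β * σ₁| ≤ 8 * lam * S * ν ∧
      (|(σ₁ : ℝ)| = 2 * S * ν ∨ |(ρ₁ : ℝ) - β * σ₁| = 8 * lam * S * ν) := by
    refine ⟨max (|(σ₁ : ℝ)| / (2 * S)) (|(ρ₁ : ℝ) - β * σ₁| / (8 * lam * S)), ?_, ?_, ?_, ?_, ?_⟩
    · by_cases hσ : σ₁ = 0
      · have hρ : ρ₁ ≠ 0 := by
          rintro rfl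
          apply hne
          rw [hσ]
          ring
        refine lt_max_of_lt_right (div_pos ?_ h8)
        rw [hσ]
        simp only [Int.cast_zero, mul_zero, sub_zero]
        exact abs_pos.2 (by exact_mod_cast hρ)
      · refine lt_max_of_lt_left (div_pos ?_ h2S)
        exact abs_pos.2 (by exact_mod_cast hσ)
    · exact max_le ((div_le_one h2S).2 b1.1) ((div_le_one h8).2 b1.2)
    · have := le_max_left (|(σ₁ : ℝ)| / (2 * S)) (|(ρ₁ : ℝ) - β * σ₁| / (8 * lam * S))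
      rw [div_le_iff₀ h2S] at this
      linarith
    · have := le_max_right (|(σ₁ : ℝ)| / (2 * S)) (|(ρ₁ : ℝ) - β * σ₁| / (8 * lam * S))
      rw [div_le_iff₀ h8] at this
      linarith
    · rcases max_choice (|(σ₁ : ℝ)| / (2 * S)) (|(ρ₁ : ℝ) - β * σ₁| / (8 * lam * S)) with h | h
      · left
        rw [h]
        field_simp
      · right
        rw [h]
        field_simp
  -- the cross product
  have hcross : ∀ ρ σ : ℤ, q ∣ ρ - t * σ → |(σ : ℝ)| ≤ 2 * S → |(ρ : ℝ) - β * σ| ≤ 8 * lam * S →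
      q ∣ ρ₁ * σ - ρ * σ₁ ∧ |((ρ₁ * σ - ρ * σ₁ : ℤ) : ℝ)| ≤ 32 * ν * lam * S ^ 2 := by
    intro ρ σ hd hs hr
    constructor
    · have e : ρ₁ * σ - ρ * σ₁ = (ρ₁ - t * σ₁) * σ - (ρ - t * σ) * σ₁ := by ring
      rw [e]
      exact dvd_sub (Dvd.dvd.mul_right h1q _) (Dvd.dvd.mul_right hd _)
    · have e : ((ρ₁ * σ - ρ * σ₁ : ℤ) : ℝ) =
          ((ρ₁ : ℝ) - β * σ₁) * σ - ((ρ : ℝ) - β * σ) * σ₁ := by
        push_cast
        ring
      rw [e]
      have h3 : |((ρ₁ : ℝ) - β * σ₁) * σ| ≤ (8 * lam * S * ν) * (2 * S) := by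
        rw [abs_mul]
        exact mul_le_mul hb hs (abs_nonneg _) (by positivity)
      have h4 : |((ρ : ℝ) - β * σ) * σ₁| ≤ (8 * lam * S) * (2 * S * ν) := by
        rw [abs_mul]
        exact mul_le_mul hr ha (abs_nonneg _) (by positivity)
      calc _ ≤ _ := abs_sub _ _
        _ ≤ _ := add_le_add h3 h4
        _ = _ := by ring
  -- the number q is small
  have hX : (q : ℝ) ≤ 32 * ν * lam * S ^ 2 := by
    obtain ⟨hd, hle⟩ := hcross ρ₂ σ₂ h2q b2.1 b2.2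
    have hne' : ρ₁ * σ₂ - ρ₂ * σ₁ ≠ 0 := sub_ne_zero.2 hne
    have h3 : q ≤ |ρ₁ * σ₂ - ρ₂ * σ₁| := by
      have := Int.le_of_dvd (abs_pos.2 hne') ((dvd_abs q _).2 hd)
      exact this
    have h4 : (q : ℝ) ≤ |((ρ₁ * σ₂ - ρ₂ * σ₁ : ℤ) : ℝ)| := by
      rw [← Int.cast_abs]
      exact_mod_cast h3
    exact h4.trans hle
  set X : ℝ := 32 * ν * lam * S ^ 2 with hXdef
  have hX0 : 0 < X := by positivity
  -- the map
  let f : ℤ × ℤ → ℤ := fun v => (ρ₁ * v.2 - v.1 * σ₁) / q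
  have hf : ∀ v ∈ D, ρ₁ * v.2 - v.1 * σ₁ = q * f v := by
    intro v hv
    obtain ⟨hd, hs, hr⟩ := hD v hv
    exact (Int.mul_ediv_cancel' (hcross v.1 v.2 hd hs hr).1).symm
  have himg : ((D.image f).card : ℝ) ≤ 2 * X / q + 1 := by
    refine card_int _ _ (by positivity) ?_
    intro m hm m' hm'
    obtain ⟨v, hv, rfl⟩ := Finset.mem_image.1 hm
    obtain ⟨v', hv', rfl⟩ := Finset.mem_image.1 hm'
    obtain ⟨hd, hs, hr⟩ := hD v hv
    obtain ⟨hd', hs', hr'⟩ := hD v' hv'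
    have h3 := (hcross v.1 v.2 hd hs hr).2
    have h4 := (hcross v'.1 v'.2 hd' hs' hr').2
    rw [hf v hv] at h3
    rw [hf v' hv'] at h4
    push_cast at h3 h4
    have h5 := (abs_le.1 h3).2
    have h6 := (abs_le.1 h4).1
    rw [le_div_iff₀ hqr]
    linarith
  -- the fibers
  obtain ⟨u, w, huw⟩ := h1
  let g : ℤ × ℤ → ℤ := fun v => u * v.1 + w * v.2
  have hfib : ∀ b ∈ D.image f, ((D.filter (fun v => f v = b)).card : ℝ) ≤ 2 / ν + 1 := by
    intro b _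
    have hpar : ∀ v ∈ D.filter (fun v => f v = b), ∀ v' ∈ D.filter (fun v => f v = b),
        (g v - g v') * ρ₁ = v.1 - v'.1 ∧ (g v - g v') * σ₁ = v.2 - v'.2 := by
      intro v hv v' hv'
      rw [Finset.mem_filter] at hv hv'
      have h3 := hf v hv.1
      have h4 := hf v' hv'.1
      rw [hv.2] at h3
      rw [hv'.2] at h4
      have h5 : ρ₁ * (v.2 - v'.2) = (v.1 - v'.1) * σ₁ := by linarith
      constructor
      · calc (g v - g v') * ρ₁ = u * ρ₁ * (v.1 - v'.1) + w * (ρ₁ * (v.2 - v'.2)) := by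
              simp only [g]
              ring
          _ = (u * ρ₁ + w * σ₁) * (v.1 - v'.1) := by
              rw [h5]
              ring
          _ = _ := by rw [huw, one_mul]
      · calc (g v - g v') * σ₁ = u * ((v.1 - v'.1) * σ₁) + w * σ₁ * (v.2 - v'.2) := by
              simp only [g]
              ring
          _ = (u * ρ₁ + w * σ₁) * (v.2 - v'.2) := by
              rw [← h5]
              ring
          _ = _ := by rw [huw, one_mul]
    have hinj : Set.InjOn g (D.filter (fun v => f v = b) : Finset (ℤ × ℤ)) := by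
      intro v hv v' hv' he
      obtain ⟨h3, h4⟩ := hpar v hv v' hv'
      rw [he, sub_self, zero_mul] at h3 h4
      exact Prod.ext (by linarith) (by linarith)
    rw [← Finset.card_image_of_injOn hinj]
    refine card_int _ _ (by positivity) ?_
    intro m hm m' hm'
    obtain ⟨v, hv, rfl⟩ := Finset.mem_image.1 hm
    obtain ⟨v', hv', rfl⟩ := Finset.mem_image.1 hm'
    obtain ⟨h3, h4⟩ := hpar v hv v' hv'
    obtain ⟨_, hs, hr⟩ := hD v (Finset.mem_filter.1 hv).1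
    obtain ⟨_, hs', hr'⟩ := hD v' (Finset.mem_filter.1 hv').1
    have h3r : ((g v : ℝ) - g v') * ρ₁ = v.1 - v'.1 := by exact_mod_cast h3
    have h4r : ((g v : ℝ) - g v') * σ₁ = v.2 - v'.2 := by exact_mod_cast h4
    rw [le_div_iff₀ hν0]
    refine (mul_le_mul_of_nonneg_right (le_abs_self _) hν0.le).trans ?_
    rcases hor with h | h
    · have h5 : |(g v : ℝ) - g v'| * |(σ₁ : ℝ)| ≤ 4 * S := by
        rw [← abs_mul, h4r]
        calc _ ≤ _ := abs_sub _ _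
          _ ≤ _ := add_le_add hs hs'
          _ = _ := by ring
      rw [h] at h5
      nlinarith
    · have h5 : |(g v : ℝ) - g v'| * |(ρ₁ : ℝ) - β * σ₁| ≤ 16 * lam * S := by
        rw [← abs_mul]
        have e : ((g v : ℝ) - g v') * ((ρ₁ : ℝ) - β * σ₁) =
            ((v.1 : ℝ) - β * v.2) - ((v'.1 : ℝ) - β * v'.2) := by
          calc _ = ((g v : ℝ) - g v') * ρ₁ - β * (((g v : ℝ) - g v') * σ₁) := by ring
            _ = _ := by
              rw [h3r, h4r]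
              ring
        rw [e]
        calc _ ≤ _ := abs_sub _ _
          _ ≤ _ := add_le_add hr hr'
          _ = _ := by ring
      rw [h] at h5
      have h6 : 8 * lam * S * (|(g v : ℝ) - g v'| * ν) ≤ 8 * lam * S * 2 := by nlinarith
      exact le_of_mul_le_mul_left h6 h8
  -- the total
  have hcount : D.card ≤ ⌊2 / ν + 1⌋₊ * (D.image f).card := by
    refine Finset.card_le_mul_card_image D _ fun b hb => ?_
    exact Nat.le_floor (hfib b hb)
  have hn : ((⌊2 / ν + 1⌋₊ : ℕ) : ℝ) ≤ 2 / ν + 1 := Nat.floor_le (by positivity)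
  have h3 : (D.card : ℝ) ≤ (2 / ν + 1) * (2 * X / q + 1) := by
    calc (D.card : ℝ) ≤ ((⌊2 / ν + 1⌋₊ * (D.image f).card : ℕ) : ℝ) := by exact_mod_cast hcount
      _ = (⌊2 / ν + 1⌋₊ : ℝ) * ((D.image f).card : ℝ) := by push_cast; ring
      _ ≤ _ := mul_le_mul hn himg (Nat.cast_nonneg _) (by positivity)
  have h4 : 2 / ν + 1 ≤ 3 / ν := by
    have : 1 ≤ 1 / ν := (one_le_div hν0).2 hν1
    have e : 3 / ν = 2 / ν + 1 / ν := by ring
    rw [e]
    linarith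
  have h5 : 2 * X / q + 1 ≤ 3 * X / q := by
    have : 1 ≤ X / q := (one_le_div hqr).2 hX
    have e : 3 * X / q = 2 * X / q + X / q := by ring
    rw [e]
    linarith
  have h6 : (2 / ν + 1) * (2 * X / q + 1) ≤ (3 / ν) * (3 * X / q) :=
    mul_le_mul h4 h5 (by positivity) (by positivity)
  have h7 : (3 / ν) * (3 * X / q) = 288 * (lam * S ^ 2 / q) := by
    rw [hXdef]
    field_simp
    ring
  have h8' : 0 ≤ lam * S ^ 2 / q := by positivity
  linarith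

end Pool.Agent.H80.SH
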