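import Mathlib

/-!
[H80 SH RCL]  The two bounds in a class (real inequality).

`E = lam S² / (U Z)`: `E² ≤ lam² S⁴ · 8 G / (U² c₀ lam S³) = (8 / c₀) lam (S G / U²) ≤ (32 / c₀) lam X` for `lam ≤ 1`, and
`E² ≤ 8 S G / (lam U²) ≤ 32 X` for `lam ≥ 1`.
`min(G, Z)³ ≤ G Z² ≤ C₀ lam S³ (1 + lam)² ≤ 4 C₀ (C₁ H)³` (`lam ≤ 1`: `S ≤ H`; `lam ≥ 1`: `S lam ≤ C₁ H`), and `H ≤ H^(5/4)`.
`min(U Z, √(S lam G))⁴ ≤ (U Z)² (S lam G) ≤ U² S lam · C₀ lam S³ (1 + lam)² ≤ 8 C₀ (C₁ H)⁵` (`U² ≤ 2 S`).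
So the left side is at most `E + min(G, Z) + min(U Z, √(S lam G))`.
-/

set_option autoImplicit false

namespace Pool.Agent.H80.SH

theorem rcls {c₀ C₀ C₁ : ℝ} (hc₀ : 0 < c₀) (hC₀ : 1 ≤ C₀) (hC₁ : 1 ≤ C₁) : ∃ K : ℝ, 0 < K ∧
    ∀ S lam G U Z H X : ℝ, 1 ≤ S → 0 < lam → 1 ≤ G → 1 ≤ U → 1 ≤ Z → 1 ≤ H → 1 ≤ X → S ≤ H → S * lam ≤ C₁ * H →
      U ^ 2 ≤ 2 * S → S * G ≤ 4 * X * U ^ 2 → c₀ * lam * S ^ 3 ≤ 8 * G * Z ^ 2 → (lam * S) ^ 3 ≤ 8 * G * Z ^ 2 →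
      G * Z ^ 2 ≤ C₀ * (lam * S ^ 3 * (1 + lam) ^ 2) →
      min (U * Z + lam * S ^ 2 / (U * Z)) (min G Z + √(S * lam * G)) ≤ K * (√X + H ^ (5 / 4 : ℝ)) := by
  set K1 : ℝ := 32 * (1 + 1 / c₀) with hK1
  set K2 : ℝ := 4 * C₀ * C₁ with hK2
  set K3 : ℝ := 8 * C₀ * C₁ ^ 5 with hK3
  have hcinv : 0 < 1 / c₀ := by positivity
  have k1 : 1 ≤ K1 := by rw [hK1]; linarith
  have k2 : 1 ≤ K2 := by rw [hK2]; nlinarith
  have hC5 : 1 ≤ C₁ ^ 5 := one_le_pow₀ hC₁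
  have k3 : 1 ≤ K3 := by rw [hK3]; nlinarith
  refine ⟨K1 + K2 + K3, by linarith, ?_⟩
  intro S lam G U Z H X hS hlam hG hU hZ hH hX hSH hSl hU2 hSG h1 h2 h3
  have hS0 : 0 < S := by linarith
  have hG0 : 0 < G := by linarith
  have hU0 : 0 < U := by linarith
  have hZ0 : 0 < Z := by linarith
  have hH0 : 0 < H := by linarith
  have hX0 : 0 < X := by linarith
  have hC00 : 0 < C₀ := by linarith
  have hC10 : 0 < C₁ := by linarith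
  have hH54 : H ≤ H ^ (5 / 4 : ℝ) := by
    calc H = H ^ (1 : ℝ) := (Real.rpow_one H).symm
      _ ≤ _ := Real.rpow_le_rpow_of_exponent_le hH (by norm_num)
  have hHp : 0 < H ^ (5 / 4 : ℝ) := Real.rpow_pos_of_pos hH0 _
  have hsX : 0 < √X := Real.sqrt_pos.2 hX0
  -- the first error
  have hE : lam * S ^ 2 / (U * Z) ≤ K1 * √X := by
    have hb : lam ^ 2 * S ^ 4 ≤ K1 * (X * U ^ 2 * Z ^ 2) := by
      have hP : 0 < X * U ^ 2 * Z ^ 2 := by positivity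
      rcases le_total lam 1 with hl | hl
      · have e1 : lam ^ 2 * S ^ 4 = (1 / c₀) * (lam * S) * (c₀ * lam * S ^ 3) := by
          field_simp
        have e2 : (1 / c₀) * (lam * S) * (c₀ * lam * S ^ 3) ≤ (1 / c₀) * (lam * S) * (8 * G * Z ^ 2) := by
          gcongr
        have e3 : (1 / c₀) * (lam * S) * (8 * G * Z ^ 2) = (1 / c₀) * (8 * lam * Z ^ 2) * (S * G) := by ring
        have e4 : (1 / c₀) * (8 * lam * Z ^ 2) * (S * G) ≤ (1 / c₀) * (8 * lam * Z ^ 2) * (4 * X * U ^ 2) := by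
          gcongr
        have e5 : (1 / c₀) * (8 * lam * Z ^ 2) * (4 * X * U ^ 2) ≤ (1 / c₀) * (8 * 1 * Z ^ 2) * (4 * X * U ^ 2) := by
          gcongr
        have e6 : (1 / c₀) * (8 * 1 * Z ^ 2) * (4 * X * U ^ 2) = 32 * (1 / c₀) * (X * U ^ 2 * Z ^ 2) := by ring
        have e7 : 32 * (1 / c₀) * (X * U ^ 2 * Z ^ 2) ≤ K1 * (X * U ^ 2 * Z ^ 2) := by
          have : 32 * (1 / c₀) ≤ K1 := by rw [hK1]; linarith
          gcongr
        linarith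
      · have e1 : lam ^ 2 * S ^ 4 ≤ lam * (lam ^ 2 * S ^ 4) := le_mul_of_one_le_left (by positivity) hl
        have e2 : lam * (lam ^ 2 * S ^ 4) = (lam * S) ^ 3 * S := by ring
        have e3 : (lam * S) ^ 3 * S ≤ (8 * G * Z ^ 2) * S := by gcongr
        have e4 : (8 * G * Z ^ 2) * S = 8 * Z ^ 2 * (S * G) := by ring
        have e5 : 8 * Z ^ 2 * (S * G) ≤ 8 * Z ^ 2 * (4 * X * U ^ 2) := by gcongr
        have e6 : 8 * Z ^ 2 * (4 * X * U ^ 2) = 32 * (X * U ^ 2 * Z ^ 2) := by ring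
        have e7 : 32 * (X * U ^ 2 * Z ^ 2) ≤ K1 * (X * U ^ 2 * Z ^ 2) := by
          have : 32 ≤ K1 := by rw [hK1]; linarith
          gcongr
        linarith
    have hb2 : K1 * (X * U ^ 2 * Z ^ 2) ≤ K1 ^ 2 * (X * U ^ 2 * Z ^ 2) := by
      have : K1 ≤ K1 ^ 2 := by nlinarith
      gcongr
    rw [div_le_iff₀ (by positivity)]
    refine (pow_le_pow_iff_left₀ (by positivity) (by positivity) two_ne_zero).1 ?_
    have e8 : (K1 * √X * (U * Z)) ^ 2 = K1 ^ 2 * (X * U ^ 2 * Z ^ 2) := by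
      rw [mul_pow, mul_pow, Real.sq_sqrt hX0.le]
      ring
    have e9 : (lam * S ^ 2) ^ 2 = lam ^ 2 * S ^ 4 := by ring
    rw [e8, e9]
    linarith
  -- the bound for `lam`
  have hA : lam * S ^ 3 * (1 + lam) ^ 2 ≤ 4 * (C₁ * H) ^ 3 := by
    rcases le_total lam 1 with hl | hl
    · calc lam * S ^ 3 * (1 + lam) ^ 2 ≤ 1 * H ^ 3 * (1 + 1) ^ 2 := by gcongr
        _ = 4 * (1 * H) ^ 3 := by ring
        _ ≤ 4 * (C₁ * H) ^ 3 := by gcongr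
    · calc lam * S ^ 3 * (1 + lam) ^ 2 ≤ lam * S ^ 3 * (lam + lam) ^ 2 := by gcongr
        _ = 4 * (S * lam) ^ 3 := by ring
        _ ≤ 4 * (C₁ * H) ^ 3 := by gcongr
  have hB : S ^ 2 * lam * (lam * S ^ 3 * (1 + lam) ^ 2) ≤ 4 * (C₁ * H) ^ 5 := by
    rcases le_total lam 1 with hl | hl
    · calc S ^ 2 * lam * (lam * S ^ 3 * (1 + lam) ^ 2) ≤ H ^ 2 * 1 * (1 * H ^ 3 * (1 + 1) ^ 2) := by gcongr
        _ = 4 * (1 * H) ^ 5 := by ring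
        _ ≤ 4 * (C₁ * H) ^ 5 := by gcongr
    · calc S ^ 2 * lam * (lam * S ^ 3 * (1 + lam) ^ 2) ≤ S ^ 2 * lam * (lam * S ^ 3 * (lam + lam) ^ 2) := by gcongr
        _ = 4 * (S * lam) ^ 4 * S := by ring
        _ ≤ 4 * (C₁ * H) ^ 4 * (C₁ * H) := by
          have : S ≤ C₁ * H := hSH.trans (le_mul_of_one_le_left hH0.le hC₁)
          gcongr
        _ = 4 * (C₁ * H) ^ 5 := by ring
  -- the minimum of `G` and `Z`
  have hM : min G Z ≤ K2 * H ^ (5 / 4 : ℝ) := by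
    set m := min G Z with hm
    have m0 : 0 < m := lt_min hG0 hZ0
    have mG : m ≤ G := min_le_left _ _
    have mZ : m ≤ Z := min_le_right _ _
    have e1 : m ^ 3 ≤ G * Z ^ 2 := by
      calc m ^ 3 = m * m ^ 2 := by ring
        _ ≤ G * Z ^ 2 := by gcongr
    have e2 : C₀ * (lam * S ^ 3 * (1 + lam) ^ 2) ≤ C₀ * (4 * (C₁ * H) ^ 3) := by gcongr
    have e3 : C₀ * (4 * (C₁ * H) ^ 3) ≤ (K2 * H) ^ 3 := by
      have f1 : (K2 * H) ^ 3 = (4 * C₀) ^ 3 * (C₁ * H) ^ 3 := by rw [hK2]; ring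
      rw [f1]
      have f2 : C₀ * (4 * (C₁ * H) ^ 3) = (4 * C₀) ^ 1 * (C₁ * H) ^ 3 := by ring
      rw [f2]
      have f3 : (4 * C₀) ^ 1 ≤ (4 * C₀) ^ 3 := pow_le_pow_right₀ (by linarith) (by norm_num)
      gcongr
    have e4 : m ≤ K2 * H := by
      refine (pow_le_pow_iff_left₀ m0.le (by positivity) three_ne_zero).1 ?_
      linarith
    calc m ≤ K2 * H := e4
      _ ≤ K2 * H ^ (5 / 4 : ℝ) := by gcongr
  -- the last minimum
  have hN : min (U * Z) (√(S * lam * G)) ≤ K3 * H ^ (5 / 4 : ℝ) := by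
    set m := min (U * Z) (√(S * lam * G)) with hm
    have m0 : 0 ≤ m := le_min (by positivity) (Real.sqrt_nonneg _)
    have mG : m ≤ U * Z := min_le_left _ _
    have mZ : m ≤ √(S * lam * G) := min_le_right _ _
    have mZ2 : m ^ 2 ≤ S * lam * G := by
      calc m ^ 2 ≤ √(S * lam * G) ^ 2 := by gcongr
        _ = S * lam * G := Real.sq_sqrt (by positivity)
    have e1 : m ^ 4 ≤ U ^ 2 * (S * lam) * (G * Z ^ 2) := by
      calc m ^ 4 = m ^ 2 * m ^ 2 := by ring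
        _ ≤ (U * Z) ^ 2 * (S * lam * G) := by gcongr
        _ = U ^ 2 * (S * lam) * (G * Z ^ 2) := by ring
    have e2 : U ^ 2 * (S * lam) * (G * Z ^ 2) ≤
        (2 * S) * (S * lam) * (C₀ * (lam * S ^ 3 * (1 + lam) ^ 2)) := by
      gcongr
    have e3 : (2 * S) * (S * lam) * (C₀ * (lam * S ^ 3 * (1 + lam) ^ 2)) =
        2 * C₀ * (S ^ 2 * lam * (lam * S ^ 3 * (1 + lam) ^ 2)) := by ring
    have e4 : 2 * C₀ * (S ^ 2 * lam * (lam * S ^ 3 * (1 + lam) ^ 2)) ≤ 2 * C₀ * (4 * (C₁ * H) ^ 5) := by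
      gcongr
    have e5 : 2 * C₀ * (4 * (C₁ * H) ^ 5) = K3 ^ 1 * H ^ 5 := by rw [hK3]; ring
    have e6 : (H ^ (5 / 4 : ℝ)) ^ 4 = H ^ 5 := by
      rw [← Real.rpow_natCast, ← Real.rpow_mul hH0.le, ← Real.rpow_natCast]
      norm_num
    have e7 : K3 ^ 1 * H ^ 5 ≤ (K3 * H ^ (5 / 4 : ℝ)) ^ 4 := by
      rw [mul_pow K3, e6]
      have f3 : K3 ^ 1 ≤ K3 ^ 4 := pow_le_pow_right₀ k3 (by norm_num)
      gcongr
    refine (pow_le_pow_iff_left₀ m0 (by positivity) four_ne_zero).1 ?_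
    linarith
  have hE0 : 0 < lam * S ^ 2 / (U * Z) := by positivity
  have hM0 : 0 < min G Z := lt_min hG0 hZ0
  have key : min (U * Z + lam * S ^ 2 / (U * Z)) (min G Z + √(S * lam * G)) ≤
      lam * S ^ 2 / (U * Z) + min G Z + min (U * Z) (√(S * lam * G)) := by
    rcases le_total (U * Z) (√(S * lam * G)) with h | h
    · refine (min_le_left _ _).trans ?_
      rw [min_eq_left h]
      linarith
    · refine (min_le_right _ _).trans ?_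
      rw [min_eq_right h]
      linarith
  refine key.trans ?_
  have l1 : K1 * √X ≤ (K1 + K2 + K3) * √X := by
    have : K1 ≤ K1 + K2 + K3 := by linarith
    gcongr
  have l2 : (K2 + K3) * H ^ (5 / 4 : ℝ) ≤ (K1 + K2 + K3) * H ^ (5 / 4 : ℝ) := by
    have : K2 + K3 ≤ K1 + K2 + K3 := by linarith
    gcongr
  have l3 : (K2 + K3) * H ^ (5 / 4 : ℝ) = K2 * H ^ (5 / 4 : ℝ) + K3 * H ^ (5 / 4 : ℝ) := by ring
  rw [mul_add]
  linarith

end Pool.Agent.H80.SH
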