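import Pool.Agent.H12.EH.Main
import Pool.Agent.H80.PT.Mv
import Pool.Agent.H80.SH.Sum

/-!
[H80 SH LOW]  The number of squarefree `d ≤ X` with `η_d ≤ Y`, every curve: `C X^ε (√X + min(Y^(5/2), √X Y))`.

`lowH`: `tw_of_low` (pairs of height at most `H = C₀ Y²`), the label (`lab0d`, as in H80/PZ/Zero.lean), `sumH`.  `lowV`: with `low_unif`.
-/

set_option autoImplicit false

namespace Pool.Agent.H80.SH

open Pool.Agent.H12.EH Pool.Agent.H80.PT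

private theorem inj {A B : ℤ} (Z : Finset ℕ) {R : ℤ × ℤ → Prop} (h : ∀ d ∈ Z, Squarefree d ∧
    ∃ p : ℤ × ℤ, R p ∧ ∃ w : ℤ, w ≠ 0 ∧ p.2 * Gf A B p.1 p.2 = d * w ^ 2) :
    ∃ T : Finset (ℤ × ℤ), (∀ p ∈ T, R p) ∧ (Z.card : ℝ) ≤ T.card := by
  classical
  have key : ∀ d ∈ Z, ∃ p : ℤ × ℤ, R p ∧ ∃ w : ℤ, w ≠ 0 ∧ p.2 * Gf A B p.1 p.2 = d * w ^ 2 := fun d hd => (h d hd).2
  choose! f hf w hw0 hw using key
  refine ⟨Z.image f, ?_, ?_⟩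
  · intro p hp
    rw [Finset.mem_image] at hp
    obtain ⟨d, hd, rfl⟩ := hp
    exact hf d hd
  · have h1 : (Z.image f).card = Z.card := by
      apply Finset.card_image_of_injOn
      intro d hd d' hd' hdd
      have hd := Finset.mem_coe.mp hd
      have hd' := Finset.mem_coe.mp hd'
      have g1 := hw d hd
      have g2 := hw d' hd'
      rw [hdd, g2] at g1
      apply sqf_unique (h d hd).1 (h d' hd').1 (Int.natAbs_ne_zero.mpr (hw0 d' hd')) (a := (w d).natAbs)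
      have h3 : (d : ℤ) * (w d) ^ 2 = d' * (w d') ^ 2 := g1.symm
      have h4 := congrArg Int.natAbs h3
      rw [Int.natAbs_mul, Int.natAbs_mul, Int.natAbs_pow, Int.natAbs_pow, Int.natAbs_natCast, Int.natAbs_natCast] at h4
      exact h4
    rw [h1]

/-- the label -/
private theorem lab0d {A B : ℤ} {H : ℝ} {d : ℕ} {r s : ℤ} (hd : Squarefree d) (h : Tw A B H d r s) :
    ∃ a g y z : ℕ, Squarefree g ∧ 0 < y ∧ 0 < z ∧ s = a * y ^ 2 ∧ Gf A B r s = g * z ^ 2 ∧ a * g = d := by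
  obtain ⟨hc, hs, -, -, w, hw, hdw⟩ := h
  have hd0 : (0 : ℤ) < d := by
    have := hd.ne_zero
    positivity
  have hG : 0 < Gf A B r s := by
    have h1 : 0 < s * Gf A B r s := by
      rw [hdw]
      positivity
    exact (pos_iff_pos_of_mul_pos h1).mp hs
  obtain ⟨a0, y0, ha0, hy0, he0⟩ := sqf_dec s hs.ne'
  obtain ⟨a1, y1, ha1, hy1, he1⟩ := sqf_dec (Gf A B r s) hG.ne'
  have hcop : IsCoprime s (Gf A B r s) := Fac_cop (A := A) (B := B) hc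
  have ha0p : 0 < a0 := by
    by_contra hcon
    have h1 : a0 ≤ 0 := not_lt.mp hcon
    have h2 : a0 * y0 ^ 2 ≤ 0 := mul_nonpos_of_nonpos_of_nonneg h1 (sq_nonneg _)
    rw [← he0] at h2
    exact absurd hs (not_lt.mpr h2)
  have ha1p : 0 < a1 := by
    by_contra hcon
    have h1 : a1 ≤ 0 := not_lt.mp hcon
    have h2 : a1 * y1 ^ 2 ≤ 0 := mul_nonpos_of_nonpos_of_nonneg h1 (sq_nonneg _)
    rw [← he1] at h2
    exact absurd hG (not_lt.mpr h2)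
  have hcop2 : IsCoprime a0 a1 := by
    refine (hcop.of_isCoprime_of_dvd_left ?_).of_isCoprime_of_dvd_right ?_
    · rw [he0]
      exact Dvd.intro _ rfl
    · rw [he1]
      exact Dvd.intro _ rfl
  have hn0 : Squarefree a0.natAbs := Int.squarefree_natAbs.mpr ha0
  have hn1 : Squarefree a1.natAbs := Int.squarefree_natAbs.mpr ha1
  have hcn : Nat.Coprime a0.natAbs a1.natAbs := by
    have := Int.isCoprime_iff_gcd_eq_one.mp hcop2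
    exact this
  have hsq : Squarefree (a0.natAbs * a1.natAbs) := (Nat.squarefree_mul hcn).mpr ⟨hn0, hn1⟩
  have hw0 : w.natAbs ≠ 0 := by rwa [Int.natAbs_ne_zero]
  have hyy : y0.natAbs * y1.natAbs ≠ 0 := by
    have h1 : 0 < y0.natAbs := Int.natAbs_pos.mpr hy0.ne'
    have h2 : 0 < y1.natAbs := Int.natAbs_pos.mpr hy1.ne'
    positivity
  have hprod : d * w.natAbs ^ 2 = (a0.natAbs * a1.natAbs) * (y0.natAbs * y1.natAbs) ^ 2 := by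
    have h1 : (d : ℤ) * w ^ 2 = (a0 * a1) * (y0 * y1) ^ 2 := by
      rw [← hdw, he1]
      nth_rewrite 1 [he0]
      ring
    have h2 := congrArg Int.natAbs h1
    rw [Int.natAbs_mul, Int.natAbs_mul, Int.natAbs_mul, Int.natAbs_pow, Int.natAbs_pow, Int.natAbs_natCast,
      Int.natAbs_mul] at h2
    exact h2
  have hdd : d = a0.natAbs * a1.natAbs := sqf_unique hd hsq hyy hprod
  refine ⟨a0.natAbs, a1.natAbs, y0.natAbs, y1.natAbs, hn1, Int.natAbs_pos.mpr hy0.ne', Int.natAbs_pos.mpr hy1.ne', ?_, ?_,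
    hdd.symm⟩
  · rw [Int.natAbs_of_nonneg ha0p.le, Int.natAbs_of_nonneg hy0.le]
    exact he0
  · rw [Int.natAbs_of_nonneg ha1p.le, Int.natAbs_of_nonneg hy1.le]
    exact he1

private theorem Gf_ne {A B : ℤ} {d : ℕ} (hd : Squarefree d) {r s w : ℤ} (hw : w ≠ 0) (h : s * Gf A B r s = d * w ^ 2) :
    Gf A B r s ≠ 0 := by
  intro h0
  rw [h0, mul_zero] at h
  have h7 : (d : ℤ) ≠ 0 := by exact_mod_cast hd.ne_zero
  exact (mul_ne_zero h7 (pow_ne_zero 2 hw)) h.symm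

/-- at most `C X^ε (√X + Y^(5/2))` squarefree `d ≤ X` with `η_d ≤ Y` -/
theorem lowH (A B : ℤ) (hD : 4 * A ^ 3 + 27 * B ^ 2 ≠ 0) (ε : ℝ) (hε : 0 < ε) : ∃ C : ℝ, 0 < C ∧
    ∀ X Y : ℝ, 1 ≤ X → 1 ≤ Y → ((low A B X Y).ncard : ℝ) ≤ C * X ^ ε * (√X + Y ^ (5 / 2 : ℝ)) := by
  classical
  obtain ⟨C₀, hC₀, htw⟩ := tw_of_low A B hD
  obtain ⟨C, hC, h1⟩ := sumH hD (ε / 3) (by positivity)
  have hC₀0 : 0 < C₀ := by linarith
  have hQ : 1 ≤ C₀ ^ (5 / 4 : ℝ) := Real.one_le_rpow hC₀ (by norm_num)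
  refine ⟨C * C₀ ^ (ε / 3) * C₀ ^ (5 / 4 : ℝ) + 2, by positivity, fun X Y hX hY => ?_⟩
  have hX0 : 0 < X := by linarith
  have hY0 : 0 < Y := by linarith
  have hXe : 1 ≤ X ^ ε := Real.one_le_rpow hX hε.le
  have hF : 0 ≤ √X + Y ^ (5 / 2 : ℝ) := by positivity
  have hYY : Y ≤ Y ^ (5 / 2 : ℝ) := by
    calc Y = Y ^ (1 : ℝ) := (Real.rpow_one Y).symm
      _ ≤ Y ^ (5 / 2 : ℝ) := Real.rpow_le_rpow_of_exponent_le hY (by norm_num)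
  rcases le_total X Y with hXY | hXY
  · have e1 := low_card A B X Y hX
    have e2 : 2 * X ≤ 2 * (√X + Y ^ (5 / 2 : ℝ)) := by
      have := Real.sqrt_nonneg X
      linarith
    have e3 : 2 * (√X + Y ^ (5 / 2 : ℝ)) ≤ 2 * X ^ ε * (√X + Y ^ (5 / 2 : ℝ)) := by
      nlinarith [mul_nonneg (sub_nonneg.mpr hXe) hF]
    have e4 : 0 ≤ C * C₀ ^ (ε / 3) * C₀ ^ (5 / 4 : ℝ) * X ^ ε * (√X + Y ^ (5 / 2 : ℝ)) := by positivity
    calc ((low A B X Y).ncard : ℝ) ≤ 2 * X ^ ε * (√X + Y ^ (5 / 2 : ℝ)) := e1.trans (e2.trans e3)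
      _ ≤ C * C₀ ^ (ε / 3) * C₀ ^ (5 / 4 : ℝ) * X ^ ε * (√X + Y ^ (5 / 2 : ℝ)) +
          2 * X ^ ε * (√X + Y ^ (5 / 2 : ℝ)) := by linarith
      _ = _ := by ring
  · obtain ⟨H, hH⟩ : ∃ H : ℝ, H = C₀ * Y ^ 2 := ⟨_, rfl⟩
    have hY2 : 1 ≤ Y ^ 2 := one_le_pow₀ hY
    have hH1 : 1 ≤ H := by rw [hH]; exact one_le_mul_of_one_le_of_one_le hC₀ hY2
    obtain ⟨Z, hZ⟩ : ∃ Z : Finset ℕ, Z = (low_fin A B X Y).toFinset := ⟨_, rfl⟩
    have hcard : ((low A B X Y).ncard : ℝ) = Z.card := by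
      rw [hZ, Set.ncard_eq_toFinset_card _ (low_fin A B X Y)]
    obtain ⟨T, hT, hTc⟩ := inj (A := A) (B := B) Z (R := fun p => IsCoprime p.1 p.2 ∧ 0 < p.2 ∧
      |(p.1 : ℝ)| ≤ H ∧ (p.2 : ℝ) ≤ H ∧ Gf A B p.1 p.2 ≠ 0 ∧
      ∃ a g y w : ℕ, Squarefree g ∧ 0 < y ∧ 0 < w ∧ p.2 = a * y ^ 2 ∧ Gf A B p.1 p.2 = g * w ^ 2 ∧
        (a : ℝ) * g ≤ X) (by
        intro d hd
        rw [hZ, Set.Finite.mem_toFinset] at hd
        obtain ⟨r, s, ht⟩ := htw X Y hY0 d hd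
        have hsq : Squarefree d := hd.2.1
        obtain ⟨a, g, y, z, hg, hy, hz, hs, hG, had⟩ := lab0d hsq ht
        obtain ⟨t1, t2, t3, t4, w, hw, t5⟩ := ht
        rw [← hH] at t3 t4
        refine ⟨hsq, (r, s), ⟨t1, t2, t3, t4, Gf_ne hsq hw t5, a, g, y, z, hg, hy, hz, hs, hG, ?_⟩, w, hw, t5⟩
        have e1 : (a : ℝ) * (g : ℝ) = (d : ℝ) := by exact_mod_cast had
        rw [e1]
        exact hd.1)
    have h2 := h1 H X hH1 hX T hT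
    have h3 : (H * X) ^ (ε / 3) ≤ C₀ ^ (ε / 3) * X ^ ε := by
      have e1 : H * X ≤ C₀ * X ^ 3 := by
        have e2 : Y ^ 2 ≤ X ^ 2 := pow_le_pow_left₀ hY0.le hXY 2
        calc H * X = C₀ * Y ^ 2 * X := by rw [hH]
          _ ≤ C₀ * X ^ 2 * X := mul_le_mul_of_nonneg_right (mul_le_mul_of_nonneg_left e2 hC₀0.le) hX0.le
          _ = C₀ * X ^ 3 := by ring
      refine (Real.rpow_le_rpow (by positivity) e1 (by positivity)).trans (le_of_eq ?_)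
      rw [Real.mul_rpow hC₀0.le (by positivity), ← Real.rpow_natCast X 3, ← Real.rpow_mul hX0.le]
      congr 2
      push_cast
      ring
    have h4 : H ^ (5 / 4 : ℝ) = C₀ ^ (5 / 4 : ℝ) * Y ^ (5 / 2 : ℝ) := by
      rw [hH, Real.mul_rpow hC₀0.le (by positivity), ← Real.rpow_natCast Y 2, ← Real.rpow_mul hY0.le]
      norm_num
    have h5 : √X + H ^ (5 / 4 : ℝ) ≤ C₀ ^ (5 / 4 : ℝ) * (√X + Y ^ (5 / 2 : ℝ)) := by
      rw [h4]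
      have := mul_nonneg (sub_nonneg.mpr hQ) (Real.sqrt_nonneg X)
      nlinarith
    rw [hcard]
    have e5 : 0 ≤ 2 * X ^ ε * (√X + Y ^ (5 / 2 : ℝ)) := by positivity
    calc (Z.card : ℝ) ≤ T.card := hTc
      _ ≤ C * (H * X) ^ (ε / 3) * (√X + H ^ (5 / 4 : ℝ)) := h2
      _ ≤ C * (C₀ ^ (ε / 3) * X ^ ε) * (C₀ ^ (5 / 4 : ℝ) * (√X + Y ^ (5 / 2 : ℝ))) := by
          refine mul_le_mul (mul_le_mul_of_nonneg_left h3 hC.le) h5 (by positivity) (by positivity)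
      _ = C * C₀ ^ (ε / 3) * C₀ ^ (5 / 4 : ℝ) * X ^ ε * (√X + Y ^ (5 / 2 : ℝ)) := by ring
      _ ≤ C * C₀ ^ (ε / 3) * C₀ ^ (5 / 4 : ℝ) * X ^ ε * (√X + Y ^ (5 / 2 : ℝ)) +
          2 * X ^ ε * (√X + Y ^ (5 / 2 : ℝ)) := by linarith
      _ = _ := by ring

/-- at most `C X^ε (X^(1/2) + min(Y^(5/2), X^(1/2) Y))` squarefree `d ≤ X` with `η_d ≤ Y` -/
theorem lowV (A B : ℤ) (hD : 4 * A ^ 3 + 27 * B ^ 2 ≠ 0) (ε : ℝ) (hε : 0 < ε) : ∃ C : ℝ, 0 < C ∧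
    ∀ X Y : ℝ, 1 ≤ X → 1 ≤ Y → ((low A B X Y).ncard : ℝ) ≤
      C * X ^ ε * (X ^ (1 / 2 : ℝ) + min (Y ^ (5 / 2 : ℝ)) (X ^ (1 / 2 : ℝ) * Y)) := by
  obtain ⟨C1, hC1, h1⟩ := lowH A B hD ε hε
  obtain ⟨C2, hC2, h2⟩ := low_unif A B hD ε hε
  refine ⟨C1 + C2, by positivity, fun X Y hX hY => ?_⟩
  have hX0 : 0 < X := by linarith
  have hY0 : 0 < Y := by linarith
  have e1 := h1 X Y hX hY
  have e2 := h2 X Y hX hY
  rw [Real.sqrt_eq_rpow] at e1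
  rw [Real.rpow_add hX0] at e2
  rcases le_total (Y ^ (5 / 2 : ℝ)) (X ^ (1 / 2 : ℝ) * Y) with h | h
  · rw [min_eq_left h]
    have e3 : 0 ≤ C2 * X ^ ε * (X ^ (1 / 2 : ℝ) + Y ^ (5 / 2 : ℝ)) := by positivity
    calc ((low A B X Y).ncard : ℝ) ≤ C1 * X ^ ε * (X ^ (1 / 2 : ℝ) + Y ^ (5 / 2 : ℝ)) := e1
      _ ≤ C1 * X ^ ε * (X ^ (1 / 2 : ℝ) + Y ^ (5 / 2 : ℝ)) + C2 * X ^ ε * (X ^ (1 / 2 : ℝ) + Y ^ (5 / 2 : ℝ)) := by
          linarith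
      _ = _ := by ring
  · rw [min_eq_right h]
    have e3 : 0 ≤ C1 * X ^ ε * (X ^ (1 / 2 : ℝ) + X ^ (1 / 2 : ℝ) * Y) + C2 * X ^ ε * X ^ (1 / 2 : ℝ) := by positivity
    calc ((low A B X Y).ncard : ℝ) ≤ C2 * (X ^ (1 / 2 : ℝ) * X ^ ε) * Y := e2
      _ ≤ C2 * (X ^ (1 / 2 : ℝ) * X ^ ε) * Y + (C1 * X ^ ε * (X ^ (1 / 2 : ℝ) + X ^ (1 / 2 : ℝ) * Y) +
          C2 * X ^ ε * X ^ (1 / 2 : ℝ)) := by linarith
      _ = _ := by ring

end Pool.Agent.H80.SH
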