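import Mathlib

/-!
[H80 SH RCL2]  The three bounds in a class (real inequality).

`E = lam S² / (U Z) ≤ C √X` as in Rcl.lean (`rcls`, its proof can be copied when it is there).  `w = √(S lam G)`, `F = U Z`, `V = √(lam S³) / U`, `W = √(1 + lam) V`.
`(Z S / U²) w ≤ √C₀ (1 + lam) V²` (from `Z √G ≤ √(C₀ lam S³) (1 + lam)`), so `min(Z S / U² + V, w) ≤ C min(W, w)`.
The left side is at most `C (E + min(G, Z) + min(F, w, W))`.
`min(W, w)⁴ ≤ W² w² = (1 + lam) lam² S⁴ G / U² ≤ 4 X (1 + lam) lam² S³ ≤ 8 X (C₁ H)³`;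
`min(F, w, W)⁶ ≤ F² w² W² = G Z² (1 + lam) lam² S⁴ ≤ C₀ (1 + lam)³ lam³ S⁷ ≤ 8 C₀ (C₁ H)⁷` (`lam ≤ 1`: `S ≤ H`; `lam ≥ 1`: `lam S ≤ C₁ H`, `S ≤ H`);
`min(G, Z)³ ≤ G Z² ≤ 4 C₀ (C₁ H)³`, `G ≤ 8 X` (`S G ≤ 4 X U² ≤ 8 X S`), so `min(G, Z) ≤ C H` and `min(G, Z) ≤ G^(1/4) (C H)^(3/4)`.
-/

set_option autoImplicit false

namespace Pool.Agent.H80.SH

private theorem min_add_le {a b c : ℝ} (ha : 0 ≤ a) (hb : 0 ≤ b) (hc : 0 ≤ c) : min (a + b) c ≤ min a c + min b c := by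
  rcases le_total a c with h | h
  · rw [min_eq_left h]
    rcases le_total b c with h' | h'
    · rw [min_eq_left h']
      exact min_le_left _ _
    · rw [min_eq_right h']
      exact (min_le_right _ _).trans (by linarith)
  · rw [min_eq_right h]
    exact (min_le_right _ _).trans (by
      have : 0 ≤ min b c := le_min hb hc
      linarith)

theorem rcls2 {c₀ C₀ C₁ : ℝ} (hc₀ : 0 < c₀) (hC₀ : 1 ≤ C₀) (hC₁ : 1 ≤ C₁) : ∃ K : ℝ, 0 < K ∧
    ∀ S lam G U Z H X : ℝ, 1 ≤ S → 0 < lam → 1 ≤ G → 1 ≤ U → 1 ≤ Z → 1 ≤ H → 1 ≤ X → S ≤ H → S * lam ≤ C₁ * H →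
      U ^ 2 ≤ 2 * S → S * G ≤ 4 * X * U ^ 2 → c₀ * lam * S ^ 3 ≤ 8 * G * Z ^ 2 → (lam * S) ^ 3 ≤ 8 * G * Z ^ 2 →
      G * Z ^ 2 ≤ C₀ * (lam * S ^ 3 * (1 + lam) ^ 2) →
      min (U * Z + lam * S ^ 2 / (U * Z)) (min (min G Z + √(S * lam * G))
        (Z * (S / U ^ 2) + √(lam * S ^ 3) / U + lam * S ^ 2 / (U * Z))) ≤
      K * (√X + min (H ^ (7 / 6 : ℝ)) (X ^ (1 / 4 : ℝ) * H ^ (3 / 4 : ℝ))) := by
  set K1 : ℝ := 32 * (1 + 1 / c₀) with hK1
  set K2 : ℝ := 32 * C₀ * C₁ ^ 3 with hK2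
  set K3 : ℝ := 8 * C₀ * C₁ ^ 7 with hK3
  have hcinv : 0 < 1 / c₀ := by positivity
  have k1 : 1 ≤ K1 := by rw [hK1]; linarith
  have hC3 : 1 ≤ C₁ ^ 3 := one_le_pow₀ hC₁
  have hC7 : 1 ≤ C₁ ^ 7 := one_le_pow₀ hC₁
  have k2 : 1 ≤ K2 := by
    have : 1 ≤ C₀ * C₁ ^ 3 := one_le_mul_of_one_le_of_one_le hC₀ hC3
    rw [hK2]
    linarith
  have k3 : 1 ≤ K3 := by
    have : 1 ≤ C₀ * C₁ ^ 7 := one_le_mul_of_one_le_of_one_le hC₀ hC7
    rw [hK3]
    linarith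
  have hCK : 0 < 2 * C₀ * K3 := by
    have : 0 < K3 := by linarith
    have : 0 < C₀ := by linarith
    positivity
  refine ⟨K1 + K2 + 2 * C₀ * K3, by linarith, ?_⟩
  intro S lam G U Z H X hS hlam hG hU hZ hH hX hSH hSl hU2 hSG h1 h2 h3
  have hS0 : 0 < S := by linarith
  have hG0 : 0 < G := by linarith
  have hU0 : 0 < U := by linarith
  have hZ0 : 0 < Z := by linarith
  have hH0 : 0 < H := by linarith
  have hX0 : 0 < X := by linarith
  have hC00 : 0 < C₀ := by linarith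
  have hC10 : 0 < C₁ := by linarith
  set P : ℝ := H ^ (7 / 6 : ℝ) with hP
  set R : ℝ := X ^ (1 / 4 : ℝ) * H ^ (3 / 4 : ℝ) with hR
  have hP0 : 0 < P := Real.rpow_pos_of_pos hH0 _
  have hR0 : 0 < R := mul_pos (Real.rpow_pos_of_pos hX0 _) (Real.rpow_pos_of_pos hH0 _)
  have hP6 : P ^ 6 = H ^ 7 := by
    rw [hP, ← Real.rpow_natCast, ← Real.rpow_mul hH0.le, ← Real.rpow_natCast]
    norm_num
  have hR4 : R ^ 4 = X * H ^ 3 := by
    have e1 : (X ^ (1 / 4 : ℝ)) ^ 4 = X := by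
      rw [← Real.rpow_natCast, ← Real.rpow_mul hX0.le]
      norm_num
    have e2 : (H ^ (3 / 4 : ℝ)) ^ 4 = H ^ 3 := by
      rw [← Real.rpow_natCast, ← Real.rpow_mul hH0.le, ← Real.rpow_natCast]
      norm_num
    rw [hR, mul_pow, e1, e2]
  have hHP : H ≤ P := by
    calc H = H ^ (1 : ℝ) := (Real.rpow_one H).symm
      _ ≤ _ := Real.rpow_le_rpow_of_exponent_le hH (by norm_num)
  have hsX : 0 < √X := Real.sqrt_pos.2 hX0
  -- the first error
  have hE : lam * S ^ 2 / (U * Z) ≤ K1 * √X := by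
    have hb : lam ^ 2 * S ^ 4 ≤ K1 * (X * U ^ 2 * Z ^ 2) := by
      have hP : 0 < X * U ^ 2 * Z ^ 2 := by positivity
      rcases le_total lam 1 with hl | hl
      · have e1 : lam ^ 2 * S ^ 4 = (1 / c₀) * (lam * S) * (c₀ * lam * S ^ 3) := by
          field_simp
        have e2 : (1 / c₀) * (lam * S) * (c₀ * lam * S ^ 3) ≤ (1 / c₀) * (lam * S) * (8 * G * Z ^ 2) := by
          gcongr
        have e3 : (1 / c₀) * (lam * S) * (8 * G * Z ^ 2) = (1 / c₀) * (8 * lam * Z ^ 2) * (S * G) := by ring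
        have e4 : (1 / c₀) * (8 * lam * Z ^ 2) * (S * G) ≤ (1 / c₀) * (8 * lam * Z ^ 2) * (4 * X * U ^ 2) := by
          gcongr
        have e5 : (1 / c₀) * (8 * lam * Z ^ 2) * (4 * X * U ^ 2) ≤ (1 / c₀) * (8 * 1 * Z ^ 2) * (4 * X * U ^ 2) := by
          gcongr
        have e6 : (1 / c₀) * (8 * 1 * Z ^ 2) * (4 * X * U ^ 2) = 32 * (1 / c₀) * (X * U ^ 2 * Z ^ 2) := by ring
        have e7 : 32 * (1 / c₀) * (X * U ^ 2 * Z ^ 2) ≤ K1 * (X * U ^ 2 * Z ^ 2) := by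
          have : 32 * (1 / c₀) ≤ K1 := by rw [hK1]; linarith
          gcongr
        linarith
      · have e1 : lam ^ 2 * S ^ 4 ≤ lam * (lam ^ 2 * S ^ 4) := le_mul_of_one_le_left (by positivity) hl
        have e2 : lam * (lam ^ 2 * S ^ 4) = (lam * S) ^ 3 * S := by ring
        have e3 : (lam * S) ^ 3 * S ≤ (8 * G * Z ^ 2) * S := by gcongr
        have e4 : (8 * G * Z ^ 2) * S = 8 * Z ^ 2 * (S * G) := by ring
        have e5 : 8 * Z ^ 2 * (S * G) ≤ 8 * Z ^ 2 * (4 * X * U ^ 2) := by gcongr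
        have e6 : 8 * Z ^ 2 * (4 * X * U ^ 2) = 32 * (X * U ^ 2 * Z ^ 2) := by ring
        have e7 : 32 * (X * U ^ 2 * Z ^ 2) ≤ K1 * (X * U ^ 2 * Z ^ 2) := by
          have : 32 ≤ K1 := by rw [hK1]; linarith
          gcongr
        linarith
    have hb2 : K1 * (X * U ^ 2 * Z ^ 2) ≤ K1 ^ 2 * (X * U ^ 2 * Z ^ 2) := by
      have : K1 ^ 1 ≤ K1 ^ 2 := pow_le_pow_right₀ k1 (by norm_num)
      rw [pow_one] at this
      gcongr
    rw [div_le_iff₀ (by positivity)]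
    refine (pow_le_pow_iff_left₀ (by positivity) (by positivity) two_ne_zero).1 ?_
    have e8 : (K1 * √X * (U * Z)) ^ 2 = K1 ^ 2 * (X * U ^ 2 * Z ^ 2) := by
      rw [mul_pow, mul_pow, Real.sq_sqrt hX0.le]
      ring
    have e9 : (lam * S ^ 2) ^ 2 = lam ^ 2 * S ^ 4 := by ring
    rw [e8, e9]
    linarith
  -- the bounds for `lam`
  have hA : lam * S ^ 3 * (1 + lam) ^ 2 ≤ 4 * (C₁ * H) ^ 3 := by
    rcases le_total lam 1 with hl | hl
    · calc lam * S ^ 3 * (1 + lam) ^ 2 ≤ 1 * H ^ 3 * (1 + 1) ^ 2 := by gcongr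
        _ = 4 * (1 * H) ^ 3 := by ring
        _ ≤ 4 * (C₁ * H) ^ 3 := by gcongr
    · calc lam * S ^ 3 * (1 + lam) ^ 2 ≤ lam * S ^ 3 * (lam + lam) ^ 2 := by gcongr
        _ = 4 * (S * lam) ^ 3 := by ring
        _ ≤ 4 * (C₁ * H) ^ 3 := by gcongr
  have hA2 : (1 + lam) * lam ^ 2 * S ^ 3 ≤ 2 * (C₁ * H) ^ 3 := by
    rcases le_total lam 1 with hl | hl
    · calc (1 + lam) * lam ^ 2 * S ^ 3 ≤ (1 + 1) * 1 ^ 2 * H ^ 3 := by gcongr
        _ = 2 * (1 * H) ^ 3 := by ring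
        _ ≤ 2 * (C₁ * H) ^ 3 := by gcongr
    · calc (1 + lam) * lam ^ 2 * S ^ 3 ≤ (lam + lam) * lam ^ 2 * S ^ 3 := by gcongr
        _ = 2 * (S * lam) ^ 3 := by ring
        _ ≤ 2 * (C₁ * H) ^ 3 := by gcongr
  have hA3 : (1 + lam) ^ 3 * lam ^ 3 * S ^ 7 ≤ 8 * (C₁ * H) ^ 7 := by
    rcases le_total lam 1 with hl | hl
    · calc (1 + lam) ^ 3 * lam ^ 3 * S ^ 7 ≤ (1 + 1) ^ 3 * 1 ^ 3 * H ^ 7 := by gcongr
        _ = 8 * (1 * H) ^ 7 := by ring
        _ ≤ 8 * (C₁ * H) ^ 7 := by gcongr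
    · calc (1 + lam) ^ 3 * lam ^ 3 * S ^ 7 ≤ (lam + lam) ^ 3 * lam ^ 3 * S ^ 7 := by gcongr
        _ = 8 * ((S * lam) ^ 6 * S) := by ring
        _ ≤ 8 * ((C₁ * H) ^ 6 * (C₁ * H)) := by
          have : S ≤ C₁ * H := hSH.trans (le_mul_of_one_le_left hH0.le hC₁)
          gcongr
        _ = 8 * (C₁ * H) ^ 7 := by ring
  -- the minimum of `G` and `Z`
  have hM : min G Z ≤ K2 * min P R := by
    set m := min G Z with hm
    have m0 : 0 < m := lt_min hG0 hZ0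
    have mG : m ≤ G := min_le_left _ _
    have mZ : m ≤ Z := min_le_right _ _
    have e1 : m ^ 3 ≤ G * Z ^ 2 := by
      calc m ^ 3 = m * m ^ 2 := by ring
        _ ≤ G * Z ^ 2 := by gcongr
    have e2 : C₀ * (lam * S ^ 3 * (1 + lam) ^ 2) ≤ C₀ * (4 * (C₁ * H) ^ 3) := by gcongr
    have e0 : m ^ 3 ≤ 4 * C₀ * C₁ ^ 3 * H ^ 3 := by
      have : C₀ * (4 * (C₁ * H) ^ 3) = 4 * C₀ * C₁ ^ 3 * H ^ 3 := by ring
      linarith
    have e4 : m ≤ K2 * H := by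
      refine (pow_le_pow_iff_left₀ m0.le (by positivity) three_ne_zero).1 ?_
      refine e0.trans ?_
      rw [mul_pow]
      have f1 : 4 * C₀ * C₁ ^ 3 ≤ K2 ^ 1 := by
        have f0 : 0 < C₀ * C₁ ^ 3 := by positivity
        rw [hK2, pow_one]
        linarith only [f0]
      have f2 : K2 ^ 1 ≤ K2 ^ 3 := pow_le_pow_right₀ k2 (by norm_num)
      have f3 : 4 * C₀ * C₁ ^ 3 ≤ K2 ^ 3 := f1.trans f2
      gcongr
    have hG8 : G ≤ 8 * X := by
      have f1 : S * G ≤ 4 * X * (2 * S) := hSG.trans (by gcongr)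
      have f2 : S * G ≤ S * (8 * X) := by linarith
      exact le_of_mul_le_mul_left f2 hS0
    have e5 : m ≤ K2 * R := by
      refine (pow_le_pow_iff_left₀ m0.le (by positivity) four_ne_zero).1 ?_
      have f1 : m ^ 4 ≤ (8 * X) * (4 * C₀ * C₁ ^ 3 * H ^ 3) := by
        calc m ^ 4 = m * m ^ 3 := by ring
          _ ≤ (8 * X) * (4 * C₀ * C₁ ^ 3 * H ^ 3) := by
            have : m ≤ 8 * X := mG.trans hG8
            gcongr
      refine f1.trans ?_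
      rw [mul_pow, hR4]
      have f2 : (8 * X) * (4 * C₀ * C₁ ^ 3 * H ^ 3) = K2 ^ 1 * (X * H ^ 3) := by rw [hK2]; ring
      rw [f2]
      have f3 : K2 ^ 1 ≤ K2 ^ 4 := pow_le_pow_right₀ k2 (by norm_num)
      gcongr
    have e6 : m ≤ K2 * P := e4.trans (by gcongr)
    rcases le_total P R with h | h
    · rw [min_eq_left h]; exact e6
    · rw [min_eq_right h]; exact e5
  -- the last minimum
  set w : ℝ := √(S * lam * G) with hw
  set V : ℝ := √(lam * S ^ 3) / U with hV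
  set W : ℝ := √(1 + lam) * V with hW
  set A : ℝ := Z * (S / U ^ 2) with hAd
  have w0 : 0 < w := Real.sqrt_pos.2 (by positivity)
  have V0 : 0 < V := div_pos (Real.sqrt_pos.2 (by positivity)) hU0
  have W0 : 0 < W := mul_pos (Real.sqrt_pos.2 (by positivity)) V0
  have A0 : 0 < A := by positivity
  have w2 : w ^ 2 = S * lam * G := Real.sq_sqrt (by positivity)
  have V2 : V ^ 2 = lam * S ^ 3 / U ^ 2 := by
    rw [hV, div_pow, Real.sq_sqrt (by positivity)]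
  have W2 : W ^ 2 = (1 + lam) * (lam * S ^ 3 / U ^ 2) := by
    rw [hW, mul_pow, Real.sq_sqrt (by positivity), V2]
  have hVW : V ≤ W := by
    have : 1 ≤ √(1 + lam) := by
      rw [Real.one_le_sqrt]
      linarith
    exact le_mul_of_one_le_left V0.le this
  have hAw : min A w ≤ C₀ * W := by
    set m := min A w with hm
    have m0 : 0 < m := lt_min A0 w0
    have mA : m ≤ A := min_le_left _ _
    have mw : m ≤ w := min_le_right _ _
    refine (pow_le_pow_iff_left₀ m0.le (by positivity) four_ne_zero).1 ?_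
    have f1 : m ^ 4 ≤ A ^ 2 * w ^ 2 := by
      calc m ^ 4 = m ^ 2 * m ^ 2 := by ring
        _ ≤ A ^ 2 * w ^ 2 := by gcongr
    have f2 : A ^ 2 * w ^ 2 = (G * Z ^ 2) * (S ^ 3 * lam / (U ^ 2) ^ 2) := by
      rw [w2, hAd]
      ring
    have f3 : (G * Z ^ 2) * (S ^ 3 * lam / (U ^ 2) ^ 2) ≤
        (C₀ * (lam * S ^ 3 * (1 + lam) ^ 2)) * (S ^ 3 * lam / (U ^ 2) ^ 2) := by gcongr
    have f4 : (C₀ * (lam * S ^ 3 * (1 + lam) ^ 2)) * (S ^ 3 * lam / (U ^ 2) ^ 2) = C₀ ^ 1 * (W ^ 2) ^ 2 := by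
      rw [W2]
      ring
    have f5 : C₀ ^ 1 * (W ^ 2) ^ 2 ≤ C₀ ^ 4 * (W ^ 2) ^ 2 := by
      have : C₀ ^ 1 ≤ C₀ ^ 4 := pow_le_pow_right₀ hC₀ (by norm_num)
      gcongr
    have f6 : (C₀ * W) ^ 4 = C₀ ^ 4 * (W ^ 2) ^ 2 := by ring
    rw [f6]
    linarith
  have hmw : min (A + V) w ≤ 2 * C₀ * min W w := by
    have g1 : min (A + V) w ≤ 2 * C₀ * W := by
      have g2 := min_add_le A0.le V0.le w0.le
      have g3 : min V w ≤ W := (min_le_left _ _).trans hVW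
      have g4 : W ≤ C₀ * W := le_mul_of_one_le_left W0.le hC₀
      linarith
    have g5 : min (A + V) w ≤ 2 * C₀ * w := (min_le_right _ _).trans (le_mul_of_one_le_left w0.le (by linarith))
    rcases le_total W w with h | h
    · rw [min_eq_left h]; exact g1
    · rw [min_eq_right h]; exact g5
  have hN : min (U * Z) (min W w) ≤ K3 * min P R := by
    set m := min (U * Z) (min W w) with hm
    have m0 : 0 < m := lt_min (by positivity) (lt_min W0 w0)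
    have mF : m ≤ U * Z := min_le_left _ _
    have mW : m ≤ W := (min_le_right _ _).trans (min_le_left _ _)
    have mw : m ≤ w := (min_le_right _ _).trans (min_le_right _ _)
    have e4 : m ≤ K3 * R := by
      refine (pow_le_pow_iff_left₀ m0.le (by positivity) four_ne_zero).1 ?_
      have f1 : m ^ 4 ≤ W ^ 2 * w ^ 2 := by
        calc m ^ 4 = m ^ 2 * m ^ 2 := by ring
          _ ≤ W ^ 2 * w ^ 2 := by gcongr
      have f2 : W ^ 2 * w ^ 2 = (1 + lam) * lam ^ 2 * S ^ 3 * ((S * G) / U ^ 2) := by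
        rw [W2, w2]
        ring
      have f3 : (S * G) / U ^ 2 ≤ 4 * X := by
        rw [div_le_iff₀ (by positivity)]
        exact hSG
      have f4 : (1 + lam) * lam ^ 2 * S ^ 3 * ((S * G) / U ^ 2) ≤ 2 * (C₁ * H) ^ 3 * (4 * X) := by gcongr
      have f5 : 2 * (C₁ * H) ^ 3 * (4 * X) = (8 * C₁ ^ 3) * (X * H ^ 3) := by ring
      have f6 : 8 * C₁ ^ 3 ≤ K3 ^ 1 := by
        rw [hK3, pow_one]
        have g1 : C₁ ^ 3 ≤ C₁ ^ 7 := pow_le_pow_right₀ hC₁ (by norm_num)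
        have g2 : C₁ ^ 7 ≤ C₀ * C₁ ^ 7 := le_mul_of_one_le_left (by positivity) hC₀
        linarith only [g1, g2]
      have f7 : K3 ^ 1 ≤ K3 ^ 4 := pow_le_pow_right₀ k3 (by norm_num)
      have f8 : (8 * C₁ ^ 3) * (X * H ^ 3) ≤ K3 ^ 4 * (X * H ^ 3) := by
        have := f6.trans f7
        gcongr
      rw [mul_pow, hR4]
      linarith
    have e6 : m ≤ K3 * P := by
      refine (pow_le_pow_iff_left₀ m0.le (by positivity) (by norm_num : (6 : ℕ) ≠ 0)).1 ?_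
      have f1 : m ^ 6 ≤ (U * Z) ^ 2 * w ^ 2 * W ^ 2 := by
        calc m ^ 6 = m ^ 2 * m ^ 2 * m ^ 2 := by ring
          _ ≤ (U * Z) ^ 2 * w ^ 2 * W ^ 2 := by gcongr
      have f2 : (U * Z) ^ 2 * w ^ 2 * W ^ 2 = (G * Z ^ 2) * ((1 + lam) * lam ^ 2 * S ^ 4) := by
        rw [W2, w2]
        field_simp
      have f3 : (G * Z ^ 2) * ((1 + lam) * lam ^ 2 * S ^ 4) ≤
          (C₀ * (lam * S ^ 3 * (1 + lam) ^ 2)) * ((1 + lam) * lam ^ 2 * S ^ 4) := by gcongr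
      have f4 : (C₀ * (lam * S ^ 3 * (1 + lam) ^ 2)) * ((1 + lam) * lam ^ 2 * S ^ 4) =
          C₀ * ((1 + lam) ^ 3 * lam ^ 3 * S ^ 7) := by ring
      have f5 : C₀ * ((1 + lam) ^ 3 * lam ^ 3 * S ^ 7) ≤ C₀ * (8 * (C₁ * H) ^ 7) := by gcongr
      have f6 : C₀ * (8 * (C₁ * H) ^ 7) = K3 ^ 1 * H ^ 7 := by rw [hK3]; ring
      have f7 : K3 ^ 1 * H ^ 7 ≤ K3 ^ 6 * H ^ 7 := by
        have : K3 ^ 1 ≤ K3 ^ 6 := pow_le_pow_right₀ k3 (by norm_num)
        gcongr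
      rw [mul_pow, hP6]
      linarith
    rcases le_total P R with h | h
    · rw [min_eq_left h]; exact e6
    · rw [min_eq_right h]; exact e4
  have hE0 : 0 < lam * S ^ 2 / (U * Z) := by positivity
  have hM0 : 0 < min G Z := lt_min hG0 hZ0
  set E : ℝ := lam * S ^ 2 / (U * Z) with hEd
  have hF0 : 0 < U * Z := by positivity
  have key : min (U * Z + E) (min (min G Z + w) (A + V + E)) ≤
      E + min G Z + 2 * C₀ * min (U * Z) (min W w) := by
    have q1 : min (U * Z) (min (A + V) w) ≤ 2 * C₀ * min (U * Z) (min W w) := by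
      have q2 : U * Z ≤ 2 * C₀ * (U * Z) := le_mul_of_one_le_left hF0.le (by linarith)
      rcases le_total (U * Z) (min W w) with h | h
      · rw [min_eq_left h]
        exact (min_le_left _ _).trans q2
      · rw [min_eq_right h]
        exact (min_le_right _ _).trans hmw
    refine le_trans ?_ (add_le_add le_rfl q1)
    rcases le_total (U * Z) (min (A + V) w) with h | h
    · rw [min_eq_left h]
      exact (min_le_left _ _).trans (by linarith)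
    · rw [min_eq_right h]
      refine (min_le_right _ _).trans ?_
      rcases le_total (A + V) w with h' | h'
      · rw [min_eq_left h']
        exact (min_le_right _ _).trans (by linarith)
      · rw [min_eq_right h']
        exact (min_le_left _ _).trans (by linarith)
  refine key.trans ?_
  have hmin0 : 0 < min P R := lt_min hP0 hR0
  have t1 : 2 * C₀ * min (U * Z) (min W w) ≤ 2 * C₀ * (K3 * min P R) := by gcongr
  have l1 : K1 * √X ≤ (K1 + K2 + 2 * C₀ * K3) * √X := by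
    have : K1 ≤ K1 + K2 + 2 * C₀ * K3 := by linarith only [hCK, k2]
    gcongr
  have l2 : (K2 + 2 * C₀ * K3) * min P R ≤ (K1 + K2 + 2 * C₀ * K3) * min P R := by
    have : K2 + 2 * C₀ * K3 ≤ K1 + K2 + 2 * C₀ * K3 := by linarith only [k1]
    gcongr
  have l3 : (K2 + 2 * C₀ * K3) * min P R = K2 * min P R + 2 * C₀ * (K3 * min P R) := by ring
  rw [mul_add]
  linarith

end Pool.Agent.H80.SH
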