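import Pool.Agent.H12.EH.Acnt
import Pool.Agent.H12.EH.Unif
import Pool.Agent.H80.SH.Dcnt
import Pool.Agent.H80.SH.Ecnt
import Pool.Agent.H80.SH.Rcl2
import Pool.Agent.H80.SH.Fbd

/-!
[H80 SH SUM2]  The number of pairs of height at most `H`: `√X + min(H^(7/6), X^(1/4) H^(3/4))`.

As `sumH` (H80/SH/Sum.lean) with the fourth bound `ecnt` and `rcls2` for `rcls`.
-/

set_option autoImplicit false

namespace Pool.Agent.H80.SH

open Pool.Agent.H12.EH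

/-- dyadic classes up to `x` -/
private theorem natLogU {x : ℝ} (hx : 1 ≤ x) : (Nat.log 2 ⌊x⌋₊ : ℝ) + 1 ≤ 2 * (Real.log x + 1) := by
  have h1 : (1 : ℕ) ≤ ⌊x⌋₊ := Nat.le_floor (by simpa using hx)
  have h2 : (Nat.log 2 ⌊x⌋₊ : ℝ) ≤ Real.logb 2 (⌊x⌋₊ : ℝ) := by
    exact_mod_cast Real.natLog_le_logb ⌊x⌋₊ 2
  have h3 : Real.logb 2 (⌊x⌋₊ : ℝ) ≤ Real.logb 2 x :=
    Real.logb_le_logb_of_le (by norm_num) (by exact_mod_cast h1) (Nat.floor_le (by linarith))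
  have h4 : Real.logb 2 x ≤ 2 * Real.log x := by
    unfold Real.logb
    rw [div_le_iff₀ (Real.log_pos (by norm_num))]
    have h5 := Real.log_two_gt_d9
    have h0 : 0 ≤ Real.log x := Real.log_nonneg hx
    nlinarith
  linarith

/-- the four bounds in a class together -/
private theorem cls4 {c Ca Cb Cd Ce C₀ G U Z P E S W H X ε R : ℝ} (hε : 0 < ε) (hCa : 0 < Ca)
    (hCb : 0 < Cb) (hCd : 0 < Cd) (hCe1 : 0 < Ce) (hS0 : 0 < S) (hSH : S ≤ H) (hW0 : 0 ≤ W) (hC₀ : 1 ≤ C₀) (hG1 : 1 ≤ G) (hZ1 : 1 ≤ Z) (hU1 : 1 ≤ U)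
    (hE : 0 ≤ E) (hH : 1 ≤ H) (hX : 1 ≤ X)
    (hGX : G ≤ X) (hZH : Z ≤ C₀ * H ^ 3)
    (ha : c ≤ Ca * G ^ (ε / 4) * (G + √P)) (hb : c ≤ Cb * Z ^ (ε / 12) * (Z + √P))
    (hd : c ≤ Cd * Z ^ (ε / 12) * (U * Z + E))
    (he : c ≤ Ce * (S * Z) ^ (ε / 16) * W)
    (hR : min (U * Z + E) (min (min G Z + √P) W) ≤ R) :
    c ≤ (Ca + Cb * C₀ ^ (ε / 12) + Cd * C₀ ^ (ε / 12) + Ce * C₀ ^ (ε / 16)) * (H * X) ^ (ε / 4) * R := by
  have hH0 : 0 < H := by linarith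
  have hX0 : 0 < X := by linarith
  have hHX : 0 < H * X := by positivity
  have hCe : 0 < C₀ ^ (ε / 12) := Real.rpow_pos_of_pos (by linarith) _
  have hHXe : 0 < (H * X) ^ (ε / 4) := Real.rpow_pos_of_pos hHX _
  have hP : 0 ≤ √P := Real.sqrt_nonneg _
  have hGe : G ^ (ε / 4) ≤ (H * X) ^ (ε / 4) :=
    Real.rpow_le_rpow (by linarith) (by nlinarith) (by positivity)
  have hZe : Z ^ (ε / 12) ≤ C₀ ^ (ε / 12) * (H * X) ^ (ε / 4) := by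
    calc Z ^ (ε / 12) ≤ (C₀ * H ^ 3) ^ (ε / 12) := Real.rpow_le_rpow (by linarith) hZH (by positivity)
      _ = C₀ ^ (ε / 12) * (H ^ 3) ^ (ε / 12) := Real.mul_rpow (by linarith) (by positivity)
      _ = C₀ ^ (ε / 12) * H ^ (ε / 4) := by
          rw [← Real.rpow_natCast, ← Real.rpow_mul hH0.le]
          congr 2
          push_cast
          ring
      _ ≤ C₀ ^ (ε / 12) * (H * X) ^ (ε / 4) := by
          apply mul_le_mul_of_nonneg_left _ hCe.le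
          exact Real.rpow_le_rpow hH0.le (by nlinarith) (by positivity)
  have hCf : 0 < C₀ ^ (ε / 16) := Real.rpow_pos_of_pos (by linarith) _
  have hSZe : (S * Z) ^ (ε / 16) ≤ C₀ ^ (ε / 16) * (H * X) ^ (ε / 4) := by
    calc (S * Z) ^ (ε / 16) ≤ (H * (C₀ * H ^ 3)) ^ (ε / 16) :=
          Real.rpow_le_rpow (by positivity) (mul_le_mul hSH hZH (by linarith) hH0.le) (by positivity)
      _ = (C₀ * H ^ 4) ^ (ε / 16) := by
          congr 1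
          ring
      _ = C₀ ^ (ε / 16) * (H ^ 4) ^ (ε / 16) := Real.mul_rpow (by linarith) (by positivity)
      _ = C₀ ^ (ε / 16) * H ^ (ε / 4) := by
          rw [← Real.rpow_natCast, ← Real.rpow_mul hH0.le]
          congr 2
          push_cast
          ring
      _ ≤ C₀ ^ (ε / 16) * (H * X) ^ (ε / 4) := by
          apply mul_le_mul_of_nonneg_left _ hCf.le
          exact Real.rpow_le_rpow hH0.le (by nlinarith) (by positivity)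
  obtain ⟨K, hK⟩ : ∃ K : ℝ, K = Ca + Cb * C₀ ^ (ε / 12) + Cd * C₀ ^ (ε / 12) + Ce * C₀ ^ (ε / 16) := ⟨_, rfl⟩
  have hb0 : 0 < Cb * C₀ ^ (ε / 12) := mul_pos hCb hCe
  have hd0 : 0 < Cd * C₀ ^ (ε / 12) := mul_pos hCd hCe
  have he0 : 0 < Ce * C₀ ^ (ε / 16) := mul_pos hCe1 hCf
  have hK0 : 0 < K := by rw [hK]; linarith
  rw [← hK]
  have h1 : c ≤ K * (H * X) ^ (ε / 4) * (G + √P) := by
    refine ha.trans (mul_le_mul_of_nonneg_right ?_ (by linarith))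
    refine mul_le_mul ?_ hGe (Real.rpow_nonneg (by linarith) _) hK0.le
    rw [hK]; linarith
  have h2 : c ≤ K * (H * X) ^ (ε / 4) * (Z + √P) := by
    refine hb.trans (mul_le_mul_of_nonneg_right ?_ (by linarith))
    calc Cb * Z ^ (ε / 12) ≤ Cb * (C₀ ^ (ε / 12) * (H * X) ^ (ε / 4)) :=
          mul_le_mul_of_nonneg_left hZe hCb.le
      _ = Cb * C₀ ^ (ε / 12) * (H * X) ^ (ε / 4) := by ring
      _ ≤ K * (H * X) ^ (ε / 4) := by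
          apply mul_le_mul_of_nonneg_right _ hHXe.le
          rw [hK]; linarith
  have h3 : c ≤ K * (H * X) ^ (ε / 4) * (U * Z + E) := by
    refine hd.trans (mul_le_mul_of_nonneg_right ?_ (by positivity))
    calc Cd * Z ^ (ε / 12) ≤ Cd * (C₀ ^ (ε / 12) * (H * X) ^ (ε / 4)) :=
          mul_le_mul_of_nonneg_left hZe hCd.le
      _ = Cd * C₀ ^ (ε / 12) * (H * X) ^ (ε / 4) := by ring
      _ ≤ K * (H * X) ^ (ε / 4) := by
          apply mul_le_mul_of_nonneg_right _ hHXe.le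
          rw [hK]; linarith
  have h5 : c ≤ K * (H * X) ^ (ε / 4) * W := by
    refine he.trans (mul_le_mul_of_nonneg_right ?_ hW0)
    calc Ce * (S * Z) ^ (ε / 16) ≤ Ce * (C₀ ^ (ε / 16) * (H * X) ^ (ε / 4)) :=
          mul_le_mul_of_nonneg_left hSZe hCe1.le
      _ = Ce * C₀ ^ (ε / 16) * (H * X) ^ (ε / 4) := by ring
      _ ≤ K * (H * X) ^ (ε / 4) := by
          apply mul_le_mul_of_nonneg_right _ hHXe.le
          rw [hK]; linarith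
  refine le_trans ?_ (mul_le_mul_of_nonneg_left hR (mul_pos hK0 hHXe).le)
  rcases min_choice (U * Z + E) (min (min G Z + √P) W) with h | h
  · rw [h]; exact h3
  · rw [h]
    rcases min_choice (min G Z + √P) W with h6 | h6
    · rw [h6]
      rcases min_choice G Z with h4 | h4
      · rw [h4]; exact h1
      · rw [h4]; exact h2
    · rw [h6]; exact h5

theorem sumH2 {A B : ℤ} (hD : 4 * A ^ 3 + 27 * B ^ 2 ≠ 0) (ε : ℝ) (hε : 0 < ε) : ∃ C : ℝ, 0 < C ∧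
    ∀ H X : ℝ, 1 ≤ H → 1 ≤ X → ∀ T : Finset (ℤ × ℤ),
    (∀ p ∈ T, IsCoprime p.1 p.2 ∧ 0 < p.2 ∧ |(p.1 : ℝ)| ≤ H ∧ (p.2 : ℝ) ≤ H ∧ Gf A B p.1 p.2 ≠ 0 ∧
      ∃ a g y w : ℕ, Squarefree g ∧ 0 < y ∧ 0 < w ∧ p.2 = a * y ^ 2 ∧ Gf A B p.1 p.2 = g * w ^ 2 ∧ (a : ℝ) * g ≤ X) →
    (T.card : ℝ) ≤ C * (H * X) ^ ε * (√X + min (H ^ (7 / 6 : ℝ)) (X ^ (1 / 4 : ℝ) * H ^ (3 / 4 : ℝ))) := by
  obtain ⟨ρ, hρ, ha⟩ := acnt A B hD
  obtain ⟨Ca, hCa, ha⟩ := ha (ε / 4) (by positivity)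
  obtain ⟨Cb, hCb, hb⟩ := bcnt hD hρ (ε / 12) (by positivity)
  obtain ⟨Cd, hCd, hd⟩ := dcnt hD ρ (ε / 12) (by positivity)
  obtain ⟨Ce, hCe1, he⟩ := ecnt hD ρ (ε / 16) (by positivity)
  obtain ⟨C₁, hC₁, h1⟩ := dya1 hρ
  obtain ⟨C₀, hC₀, h0⟩ := gf_up A B
  obtain ⟨c₀, hc₀, hlow⟩ := gf_low hρ
  obtain ⟨C₂, hC₂, hupf⟩ := gf_upf hρ
  obtain ⟨Kr, hKr, hr⟩ := rcls2 hc₀ hC₂ hC₁
  obtain ⟨CL, hCL, hL⟩ := log_pow_le 5 (3 * ε / 4) (by positivity)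
  obtain ⟨K, hK⟩ : ∃ K : ℝ, K = Ca + Cb * C₀ ^ (ε / 12) + Cd * C₀ ^ (ε / 12) + Ce * C₀ ^ (ε / 16) := ⟨_, rfl⟩
  have hCe : 0 < C₀ ^ (ε / 12) := Real.rpow_pos_of_pos (by linarith) _
  have hCf : 0 < C₀ ^ (ε / 16) := Real.rpow_pos_of_pos (by linarith) _
  have hK0 : 0 < K := by
    rw [hK]
    positivity
  have hlC : 0 ≤ Real.log C₀ := Real.log_nonneg hC₀
  refine ⟨C₁ * (2 * (2 * (Real.log C₀ + 3)) * 2) * CL * (K * Kr), by positivity,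
    fun H X hH hX T hT => ?_⟩
  have hX0 : 0 < X := by linarith
  have hH0 : 0 < H := by linarith
  have hHX1 : 1 ≤ H * X := by nlinarith
  have hHX0 : 0 < H * X := by linarith
  have hW : 0 < (H * X) ^ (ε / 4) := Real.rpow_pos_of_pos hHX0 _
  have hQ : 0 ≤ √X + min (H ^ (7 / 6 : ℝ)) (X ^ (1 / 4 : ℝ) * H ^ (3 / 4 : ℝ)) := by
    have t1 := Real.sqrt_nonneg X
    have t2 : 0 ≤ min (H ^ (7 / 6 : ℝ)) (X ^ (1 / 4 : ℝ) * H ^ (3 / 4 : ℝ)) :=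
      le_min (Real.rpow_nonneg hH0.le _) (mul_nonneg (Real.rpow_nonneg hX0.le _) (Real.rpow_nonneg hH0.le _))
    linarith
  have hf : ∀ p : ℤ × ℤ, ∃ a g y w : ℕ, p ∈ T → Squarefree g ∧ 0 < y ∧ 0 < w ∧ p.2 = a * y ^ 2 ∧
      Gf A B p.1 p.2 = g * w ^ 2 ∧ (a : ℝ) * g ≤ X := by
    intro p
    by_cases hp : p ∈ T
    · obtain ⟨-, -, -, -, -, a, g, y, w, h⟩ := hT p hp
      exact ⟨a, g, y, w, fun _ => h⟩
    · exact ⟨0, 0, 0, 0, fun h => absurd h hp⟩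
  choose a g y w hgw using hf
  have hg0 : ∀ p ∈ T, 1 ≤ g p := by
    intro p hp
    have := (hgw p hp).1.ne_zero
    omega
  have hy0 : ∀ p ∈ T, 1 ≤ y p := fun p hp => (hgw p hp).2.1
  have hw0 : ∀ p ∈ T, 1 ≤ w p := fun p hp => (hgw p hp).2.2.1
  have ha0 : ∀ p ∈ T, 1 ≤ a p := by
    intro p hp
    have h2 := (hT p hp).2.1
    rw [(hgw p hp).2.2.2.1] at h2
    by_contra h3
    have h4 : a p = 0 := by omega
    rw [h4] at h2
    simp at h2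
  have hsr : ∀ p ∈ T, ((p.2 : ℤ) : ℝ) = (a p : ℝ) * (y p : ℝ) ^ 2 := by
    intro p hp
    have h2 := (hgw p hp).2.2.2.1
    rw [h2]
    push_cast
    ring
  have hGf : ∀ p ∈ T, |((Gf A B p.1 p.2 : ℤ) : ℝ)| = (g p : ℝ) * (w p : ℝ) ^ 2 := by
    intro p hp
    rw [(hgw p hp).2.2.2.2.1]
    push_cast
    exact abs_of_nonneg (by positivity)
  have hGle : ∀ p ∈ T, (g p : ℝ) * (w p : ℝ) ^ 2 ≤ C₀ * H ^ 3 := by
    intro p hp
    obtain ⟨-, h2, h3, h4, -, -⟩ := hT p hp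
    have h5 := h0 H p.1 p.2 h3 h2 h4
    rwa [hGf p hp] at h5
  have hgX : ∀ p ∈ T, (g p : ℝ) ≤ X := by
    intro p hp
    have h2 := (hgw p hp).2.2.2.2.2
    have h3 : (1 : ℝ) ≤ a p := by exact_mod_cast ha0 p hp
    have h4 : (0 : ℝ) ≤ g p := Nat.cast_nonneg _
    nlinarith
  have hyH : ∀ p ∈ T, (y p : ℝ) ≤ H := by
    intro p hp
    have h2 := (hT p hp).2.2.2.1
    rw [hsr p hp] at h2
    have h3 : (1 : ℝ) ≤ a p := by exact_mod_cast ha0 p hp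
    have h4 : (1 : ℝ) ≤ y p := by exact_mod_cast hy0 p hp
    have h5 : (y p : ℝ) ≤ (y p : ℝ) ^ 2 := le_self_pow₀ h4 (by norm_num)
    have h6 : (y p : ℝ) ^ 2 ≤ a p * (y p : ℝ) ^ 2 := le_mul_of_one_le_left (sq_nonneg _) h3
    exact (h5.trans h6).trans h2
  have hwH : ∀ p ∈ T, (w p : ℝ) ≤ C₀ * H ^ 3 := by
    intro p hp
    refine le_trans ?_ (hGle p hp)
    have h4 : (1 : ℝ) ≤ g p := by exact_mod_cast hg0 p hp
    have h5 : (1 : ℝ) ≤ w p := by exact_mod_cast hw0 p hp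
    have h6 : (w p : ℝ) ≤ (w p : ℝ) ^ 2 := le_self_pow₀ h5 (by norm_num)
    exact h6.trans (le_mul_of_one_le_left (sq_nonneg _) h4)
  obtain ⟨M₀, hM₀⟩ : ∃ M₀ : ℝ, M₀ = K * (H * X) ^ (ε / 4) * (Kr * (√X + min (H ^ (7 / 6 : ℝ)) (X ^ (1 / 4 : ℝ) * H ^ (3 / 4 : ℝ)))) := ⟨_, rfl⟩
  have hM₀0 : 0 ≤ M₀ := by
    rw [hM₀]
    positivity
  have hH3 : 1 ≤ C₀ * H ^ 3 := by
    have : 1 ≤ H ^ 3 := one_le_pow₀ hH
    nlinarith
  have key := h1 H hH T (((Nat.log 2 ⌊X⌋₊ : ℕ) + 1) * (((Nat.log 2 ⌊C₀ * H ^ 3⌋₊ : ℕ) + 1) *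
      (((Nat.log 2 ⌊H⌋₊ : ℕ) + 1) * M₀)))
    (by positivity)
    (by
      intro p hp
      obtain ⟨-, h2, h3, h4, h5, -⟩ := hT p hp
      exact ⟨h2, h3, h4, h5⟩)
    (by
      intro v S lam hS hlam hSl T' hT' hFib
      refine dya2 T' g ⌊X⌋₊ _ (by positivity)
        (fun p hp => ⟨hg0 p (hT' hp), Nat.le_floor (hgX p (hT' hp))⟩) ?_
      intro k hk T₂ hT₂ hgk
      refine dya2 T₂ w ⌊C₀ * H ^ 3⌋₊ _ (by positivity)
        (fun p hp => ⟨hw0 p (hT' (hT₂ hp)), Nat.le_floor (hwH p (hT' (hT₂ hp)))⟩) ?_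
      intro l hl T₃ hT₃ hwl
      refine dya2 T₃ y ⌊H⌋₊ _ hM₀0
        (fun p hp => ⟨hy0 p (hT' (hT₂ (hT₃ hp))), Nat.le_floor (hyH p (hT' (hT₂ (hT₃ hp))))⟩) ?_
      intro j hj T₄ hT₄ hyj
      rcases T₄.eq_empty_or_nonempty with he | ⟨q, hq4⟩
      · rw [he]
        simpa using hM₀0
      · have hS0 : 0 < S := by linarith
        have hG1 : (1 : ℝ) ≤ 2 ^ k := one_le_pow₀ (by norm_num)
        have hZ1 : (1 : ℝ) ≤ 2 ^ l := one_le_pow₀ (by norm_num)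
        have hU1 : (1 : ℝ) ≤ 2 ^ j := one_le_pow₀ (by norm_num)
        have hmT : ∀ p ∈ T₄, p ∈ T := fun p hp => hT' (hT₂ (hT₃ (hT₄ hp)))
        have hF : ∀ p ∈ T₄, Fib ρ v S lam p.1 p.2 := fun p hp => hFib p (hT₂ (hT₃ (hT₄ hp)))
        have bG : ∀ p ∈ T₄, ((2 : ℝ) ^ k) ≤ g p ∧ (g p : ℝ) ≤ 2 * 2 ^ k := fun p hp =>
          ⟨by exact_mod_cast (hgk p (hT₃ (hT₄ hp))).1, by exact_mod_cast (hgk p (hT₃ (hT₄ hp))).2⟩
        have bZ : ∀ p ∈ T₄, ((2 : ℝ) ^ l) ≤ w p ∧ (w p : ℝ) ≤ 2 * 2 ^ l := fun p hp =>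
          ⟨by exact_mod_cast (hwl p (hT₄ hp)).1, by exact_mod_cast (hwl p (hT₄ hp)).2⟩
        have bU : ∀ p ∈ T₄, ((2 : ℝ) ^ j) ≤ y p ∧ (y p : ℝ) ≤ 2 * 2 ^ j := fun p hp =>
          ⟨by exact_mod_cast (hyj p hp).1, by exact_mod_cast (hyj p hp).2⟩
        have hGX : (2 : ℝ) ^ k ≤ X := (bG q hq4).1.trans (hgX q (hmT q hq4))
        have hZH : (2 : ℝ) ^ l ≤ C₀ * H ^ 3 := (bZ q hq4).1.trans (hwH q (hmT q hq4))
        have hca := ha v S lam (2 ^ k) hS0 hlam hG1 T₄ (fun p hp =>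
          ⟨(hT p (hmT p hp)).1, (hT p (hmT p hp)).2.1, hF p hp, g p, w p, (hgw p (hmT p hp)).1,
            hw0 p (hmT p hp), (bG p hp).1, (bG p hp).2, (hgw p (hmT p hp)).2.2.2.2.1⟩)
        have hcb := hb v S lam (2 ^ k) (2 ^ l) hS0 hlam hG1 hZ1 T₄ (fun p hp =>
          ⟨(hT p (hmT p hp)).1, (hT p (hmT p hp)).2.1, hF p hp, g p, w p,
            (bG p hp).1, (bG p hp).2, (bZ p hp).1, (bZ p hp).2, (hgw p (hmT p hp)).2.2.2.2.1⟩)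
        have hcd := hd v S lam (2 ^ j) (2 ^ l) hS0 hlam hU1 hZ1 T₄ (fun p hp =>
          ⟨(hT p (hmT p hp)).1, (hT p (hmT p hp)).2.1, hF p hp, y p, w p,
            (bU p hp).1, (bU p hp).2, (bZ p hp).1, (bZ p hp).2,
            by rw [(hgw p (hmT p hp)).2.2.2.1]; exact Dvd.intro_left _ rfl,
            by rw [(hgw p (hmT p hp)).2.2.2.2.1]; exact Dvd.intro_left _ rfl⟩)
        -- the pair `q`
        have hqT := hmT q hq4
        have hqF := hF q hq4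
        have e1 := hqF.1
        have e2 := hqF.2.1
        have e3 := (hT q hqT).2.2.2.1
        have e4 := hsr q hqT
        have e5 := hGf q hqT
        have e6 : (1 : ℝ) ≤ a q := by exact_mod_cast ha0 q hqT
        have e7 := (hgw q hqT).2.2.2.2.2
        have g1 := (bG q hq4).1
        have g2 := (bG q hq4).2
        have z1 := (bZ q hq4).1
        have z2 := (bZ q hq4).2
        have u1 := (bU q hq4).1
        have u2 := (bU q hq4).2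
        have hU2 : ((2 : ℝ) ^ j) ^ 2 ≤ 2 * S := by
          have t1 : ((2 : ℝ) ^ j) ^ 2 ≤ (y q : ℝ) ^ 2 := pow_le_pow_left₀ (by positivity) u1 2
          have t2 : (y q : ℝ) ^ 2 ≤ a q * (y q : ℝ) ^ 2 := le_mul_of_one_le_left (sq_nonneg _) e6
          rw [← e4] at t2
          exact (t1.trans t2).trans e2
        have hSG : S * 2 ^ k ≤ 4 * X * ((2 : ℝ) ^ j) ^ 2 := by
          have t1 : S * 2 ^ k ≤ (a q * (y q : ℝ) ^ 2) * g q := by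
            rw [← e4]
            exact mul_le_mul e1 g1 (by positivity) (hS0.le.trans e1)
          have t2 : (y q : ℝ) ^ 2 ≤ (2 * 2 ^ j) ^ 2 := pow_le_pow_left₀ (by positivity) u2 2
          calc S * 2 ^ k ≤ (a q * (y q : ℝ) ^ 2) * g q := t1
            _ = (a q * g q) * (y q : ℝ) ^ 2 := by ring
            _ ≤ X * (2 * 2 ^ j) ^ 2 := mul_le_mul e7 t2 (by positivity) hX0.le
            _ = 4 * X * ((2 : ℝ) ^ j) ^ 2 := by ring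
        have hce := he v S lam (2 ^ j) (2 ^ l) hS hlam hU1 hZ1 hU2 T₄ (fun p hp =>
          ⟨(hT p (hmT p hp)).1, (hT p (hmT p hp)).2.1, hF p hp, a p, y p, w p, (hgw p (hmT p hp)).2.2.2.1,
            (bU p hp).1, (bU p hp).2, (bZ p hp).1, (bZ p hp).2,
            by rw [(hgw p (hmT p hp)).2.2.2.2.1]; exact Dvd.intro_left _ rfl⟩)
        have hgw8 : (g q : ℝ) * (w q : ℝ) ^ 2 ≤ 8 * 2 ^ k * ((2 : ℝ) ^ l) ^ 2 := by
          have t2 : (w q : ℝ) ^ 2 ≤ (2 * 2 ^ l) ^ 2 := pow_le_pow_left₀ (by positivity) z2 2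
          calc (g q : ℝ) * (w q : ℝ) ^ 2 ≤ (2 * 2 ^ k) * (2 * 2 ^ l) ^ 2 :=
                mul_le_mul g2 t2 (by positivity) (by positivity)
            _ = _ := by ring
        have hgw1 : (2 : ℝ) ^ k * ((2 : ℝ) ^ l) ^ 2 ≤ (g q : ℝ) * (w q : ℝ) ^ 2 :=
          mul_le_mul g1 (pow_le_pow_left₀ (by positivity) z1 2) (by positivity) (by positivity)
        have l1 := hlow v S lam q.1 q.2 hS0 hlam hqF
        have l2 := gf_low3 hρ v S lam q.1 q.2 hS0 hlam hqF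
        have l3 := hupf v S lam q.1 q.2 hS0 hlam hqF
        rw [e5] at l1 l2 l3
        have hmin := hr S lam (2 ^ k) (2 ^ j) (2 ^ l) H X hS hlam hG1 hU1 hZ1 hH hX (e1.trans e3) hSl
          hU2 hSG (l1.trans hgw8) (l2.trans hgw8) (hgw1.trans l3)
        rw [hM₀, hK]
        exact cls4 hε hCa hCb hCd hCe1 hS0 (e1.trans e3) (by positivity) hC₀ hG1 hZ1 hU1 (by positivity) hH hX hGX hZH
          hca hcb hcd hce hmin)
  have hlX : 0 ≤ Real.log X := Real.log_nonneg hX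
  have hlH : 0 ≤ Real.log H := Real.log_nonneg hH
  have hlHX : Real.log (H * X) = Real.log H + Real.log X := Real.log_mul hH0.ne' hX0.ne'
  obtain ⟨L, hLdef⟩ : ∃ L : ℝ, L = Real.log (H * X) + 1 := ⟨_, rfl⟩
  have hL1 : 1 ≤ L := by rw [hLdef, hlHX]; linarith
  have hn0 : Real.log H + 1 ≤ L := by rw [hLdef, hlHX]; linarith
  have hn1 : (Nat.log 2 ⌊X⌋₊ : ℝ) + 1 ≤ 2 * L := by
    refine (natLogU hX).trans ?_
    rw [hLdef, hlHX]; linarith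
  have hn3 : (Nat.log 2 ⌊H⌋₊ : ℝ) + 1 ≤ 2 * L := by
    refine (natLogU hH).trans ?_
    rw [hLdef, hlHX]; linarith
  have hn2 : (Nat.log 2 ⌊C₀ * H ^ 3⌋₊ : ℝ) + 1 ≤ 2 * (Real.log C₀ + 3) * L := by
    refine (natLogU hH3).trans ?_
    rw [Real.log_mul (by linarith) (by positivity), Real.log_pow]
    push_cast
    nlinarith
  have hL5 := hL (H * X) hHX1
  rw [← hLdef] at hL5
  have hXX : (H * X) ^ (3 * ε / 4) * (H * X) ^ (ε / 4) = (H * X) ^ ε := by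
    rw [← Real.rpow_add hHX0]
    congr 1
    ring
  calc (T.card : ℝ) ≤ C₁ * (Real.log H + 1) ^ 2 *
        (((Nat.log 2 ⌊X⌋₊ : ℕ) + 1) * (((Nat.log 2 ⌊C₀ * H ^ 3⌋₊ : ℕ) + 1) *
          (((Nat.log 2 ⌊H⌋₊ : ℕ) + 1) * M₀))) := key
    _ ≤ C₁ * L ^ 2 * ((2 * L) * ((2 * (Real.log C₀ + 3) * L) * ((2 * L) * M₀))) := by
        gcongr
    _ = C₁ * (2 * (2 * (Real.log C₀ + 3)) * 2) * L ^ 5 * M₀ := by ring
    _ ≤ C₁ * (2 * (2 * (Real.log C₀ + 3)) * 2) * (CL * (H * X) ^ (3 * ε / 4)) * M₀ := by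
        gcongr
    _ = C₁ * (2 * (2 * (Real.log C₀ + 3)) * 2) * CL * (K * Kr) *
          ((H * X) ^ (3 * ε / 4) * (H * X) ^ (ε / 4)) * (√X + min (H ^ (7 / 6 : ℝ)) (X ^ (1 / 4 : ℝ) * H ^ (3 / 4 : ℝ))) := by
        rw [hM₀]
        ring
    _ = C₁ * (2 * (2 * (Real.log C₀ + 3)) * 2) * CL * (K * Kr) * (H * X) ^ ε *
          (√X + min (H ^ (7 / 6 : ℝ)) (X ^ (1 / 4 : ℝ) * H ^ (3 / 4 : ℝ))) := by rw [hXX]

end Pool.Agent.H80.SH
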